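import Pool.Agent.Work.MP_8b5b22_gt.G.PPb

/-!
# Module PPc (M): the whole space is partitionable

Let `𝒢` be an open cover such that for every increasing node `s` some `G ∈ 𝒢` has good
complement at `s`.  Then `PP 𝒢 univ`.

Proof.  Call a node `t` bad if `∀ k, ¬ PP 𝒢 (Nd L t k)`.  If the empty node `nil Ω` is not bad
we are done: `nd_nil`.  Otherwise apply `branch` (file Node) with `s = nil Ω` and
`P m t := (t is bad) ∧ ∀ (i : Fin m) (a : Ω), a < t i → (∀ j, pre t i j < a) →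
∃ k, PP 𝒢 (Nd L (sn (pre t i) a) k)`.
Step: let `P m t`, `Inc t`.  By `pp_step` (contrapositive) there is `a` above `t` with `sn t a`
bad; take the least such `a` (`WellFounded.min`).  `P (m+1) (sn t a)`: for `i = castSucc i'`,
`pre (sn t a) i` is `pre t i'` and it follows from `P m t`; for `i = last`, `pre (sn t a) i` is
`t`, and `b < a`, `b` above `t`, is not bad by minimality.  (Lemmas on `pre (sn t a) i`: `funext`,
`sn_of_lt`.)
The branch `x` has all `tr x m` bad.  But `x ∈ G` for some `G ∈ 𝒢`, `G` open, so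
`Nd L (tr x m) k ⊆ G` for some `m, k` (`open_iff`), and `PP 𝒢 (Nd L (tr x m) k)` by `pp_of_sub`:
contradiction.
-/

open Set
open scoped Topology

namespace CWG

variable {Ω : Type} [LinearOrder Ω] [WellFoundedLT Ω] {L : NS Ω}

private theorem PPc_last {m : ℕ} (t : Fin m → Ω) (a : Ω) :
    pre (sn t a) (Fin.last m) = t := by
  funext i
  exact sn_of_lt t a i.1 i.2

private theorem PPc_cast {m : ℕ} (t : Fin m → Ω) (a : Ω) (i : Fin m) :
    pre (sn t a) i.castSucc = pre t i := by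
  funext j
  exact sn_of_lt t a j.1 (lt_trans j.2 i.2)

theorem pp_univ (hO : Om Ω) (𝒢 : Set (Set (XX L))) (hopen : ∀ G ∈ 𝒢, IsOpen G)
    (hcov : ∀ x, ∃ G ∈ 𝒢, x ∈ G)
    (hgood : ∀ (n : ℕ) (s : Fin n → Ω), Inc s → ∃ G ∈ 𝒢, Good Gᶜ s) : PP 𝒢 univ := by
  by_contra hcon
  obtain ⟨x, -, hx⟩ := branch (L := L) (fun m t => (∀ k, ¬ PP 𝒢 (Nd L t k)) ∧
    ∀ (i : Fin m) (a : Ω), a < t i → (∀ j, pre t i j < a) →
      ∃ k, PP 𝒢 (Nd L (sn (pre t i) a) k)) (nil Ω) inc_nil
    ⟨fun k => by rw [nd_nil]; exact hcon, fun i => i.elim0⟩ (by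
      rintro m t ht ⟨hbad, h2⟩
      have hne : {a | (∀ i, t i < a) ∧ ∀ k, ¬ PP 𝒢 (Nd L (sn t a) k)}.Nonempty := by
        by_contra hemp
        rw [Set.not_nonempty_iff_eq_empty] at hemp
        obtain ⟨G, hG, hg⟩ := hgood m t ht
        obtain ⟨k, hk⟩ := pp_step hO 𝒢 t ht (fun a ha => by
          by_contra hno
          push Not at hno
          have h3 : a ∈ {a | (∀ i, t i < a) ∧ ∀ k, ¬ PP 𝒢 (Nd L (sn t a) k)} := ⟨ha, hno⟩
          rw [hemp] at h3
          exact h3) h2 G hG hg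
        exact hbad k hk
      obtain ⟨a, ⟨ha1, ha2⟩, hamin⟩ : ∃ a, ((∀ i, t i < a) ∧ ∀ k, ¬ PP 𝒢 (Nd L (sn t a) k)) ∧
          ∀ b < a, (∀ i, t i < b) → ∃ k, PP 𝒢 (Nd L (sn t b) k) := by
        refine ⟨WellFounded.min wellFounded_lt _ hne, WellFounded.min_mem wellFounded_lt _ hne,
          fun b hb htb => ?_⟩
        by_contra hno
        push Not at hno
        have h3 : b ∈ {a | (∀ i, t i < a) ∧ ∀ k, ¬ PP 𝒢 (Nd L (sn t a) k)} := ⟨htb, hno⟩
        exact WellFounded.not_lt_min wellFounded_lt _ h3 hb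
      refine ⟨a, ha1, ha2, fun i => ?_⟩
      induction i using Fin.lastCases with
      | last =>
        intro b hb hpre
        rw [sn_last] at hb
        have hpre' : ∀ j : Fin m, pre (sn t a) (Fin.last m) j < b := hpre
        rw [PPc_last] at hpre'
        obtain ⟨k, hk⟩ := hamin b hb hpre'
        refine ⟨k, ?_⟩
        change PP 𝒢 (Nd L (sn (n := m) (pre (sn t a) (Fin.last m)) b) k)
        rw [PPc_last]
        exact hk
      | cast i =>
        intro b hb hpre
        rw [sn_castSucc] at hb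
        have hpre' : ∀ j : Fin i.1, pre (sn t a) i.castSucc j < b := hpre
        rw [PPc_cast] at hpre'
        obtain ⟨k, hk⟩ := h2 i b hb hpre'
        refine ⟨k, ?_⟩
        change PP 𝒢 (Nd L (sn (n := i.1) (pre (sn t a) i.castSucc) b) k)
        rw [PPc_cast]
        exact hk)
  obtain ⟨G, hG, hxG⟩ := hcov x
  obtain ⟨m, k, hsub⟩ := hopen G hG x hxG
  exact (hx m (Nat.zero_le m)).1 k (pp_of_sub ⟨nd_closed L _ _, nd_open L _ _⟩ hG hsub)

end CWG
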