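import Pool.Agent.Work.MP_8b5b22_gt.G.UF
import Pool.Agent.Work.MP_8b5b22_gt.G.PPc

/-!
# Module CWN (M): collectionwise normality

Let `F i` be a discrete family of closed sets.  If `ι` is empty there is nothing to do
(`V` = the empty function).  Otherwise let `𝒢 = {(⋃ j ≠ i, F j)ᶜ | i : ι}`.
Members are open (`union_closed`).  Cover: `x ∈ F i` is in the `i`-th member (`disj`); `x` in no
`F i` is in all members.  Good complements at every increasing node `s`: the complement of the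
`i`-th member is `⋃ j ≠ i, F j`.  If `⋃ i, F i` is good at `s` take any `i` (`good_anti`); otherwise
`uf`.  So `pp_univ` gives `f`.  Let `V i = ⋃ y ∈ F i, f y`: open and contains `F i`.
Disjoint: let `z ∈ f y ∩ f y'`, `y ∈ F i`, `y' ∈ F j`; then `f y = f z = f y'` is contained in
the `l`-th member of `𝒢` for some `l`; it contains `y ∈ F i`, so `i = l`, and `y' ∈ F j`, so
`j = l`.
-/

open Set
open scoped Topology

namespace CWG

variable {Ω : Type} [LinearOrder Ω] [WellFoundedLT Ω]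

theorem cwn (hO : Om Ω) (L : NS Ω) (ι : Type) (F : ι → Set (XX L)) (hF : ∀ i, IsClosed (F i))
    (hd : ∀ x : XX L, ∃ U ∈ 𝓝 x, ∀ i j, (F i ∩ U).Nonempty → (F j ∩ U).Nonempty → i = j) :
    ∃ V : ι → Set (XX L), (∀ i, IsOpen (V i)) ∧ (∀ i, F i ⊆ V i) ∧
      Pairwise (fun i j => Disjoint (V i) (V j)) := by
  rcases isEmpty_or_nonempty ι with hι | ⟨⟨i₀⟩⟩
  · exact ⟨fun i => (hι.false i).elim, fun i => (hι.false i).elim, fun i => (hι.false i).elim,
      fun i => (hι.false i).elim⟩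
  obtain ⟨K, hK⟩ : ∃ K : ι → Set (XX L), ∀ i, K i = ⋃ j ∈ ({i} : Set ι)ᶜ, F j := ⟨_, fun _ => rfl⟩
  have hmemK : ∀ i x, x ∈ K i ↔ ∃ j, j ≠ i ∧ x ∈ F j := by
    intro i x
    rw [hK, mem_iUnion₂]
    constructor
    · rintro ⟨j, hj, hx⟩
      exact ⟨j, hj, hx⟩
    · rintro ⟨j, hj, hx⟩
      exact ⟨j, hj, hx⟩
  have hKc : ∀ i, IsClosed (K i) := fun i => by
    rw [hK]
    exact union_closed F hF hd _
  have hpp : PP {G | ∃ i, G = (K i)ᶜ} (univ : Set (XX L)) := by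
    refine pp_univ hO _ ?_ ?_ ?_
    · rintro G ⟨i, rfl⟩
      exact (hKc i).isOpen_compl
    · intro x
      by_cases hx : ∃ i, x ∈ F i
      · obtain ⟨i, hi⟩ := hx
        refine ⟨_, ⟨i, rfl⟩, fun hxK => ?_⟩
        obtain ⟨j, hj, hxj⟩ := (hmemK i x).1 hxK
        exact hj (disj F hd hxj hi)
      · refine ⟨_, ⟨i₀, rfl⟩, fun hxK => ?_⟩
        obtain ⟨j, hj, hxj⟩ := (hmemK i₀ x).1 hxK
        exact hx ⟨j, hxj⟩
    · intro n s hs
      by_cases hg : Good (⋃ i, F i) s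
      · refine ⟨_, ⟨i₀, rfl⟩, ?_⟩
        rw [compl_compl]
        refine good_anti (fun x hx => ?_) hg
        obtain ⟨j, -, hxj⟩ := (hmemK i₀ x).1 hx
        exact mem_iUnion.2 ⟨j, hxj⟩
      · obtain ⟨i, -, hi⟩ := uf hO F hF hd hs hg
        refine ⟨_, ⟨i, rfl⟩, ?_⟩
        rw [compl_compl, hK]
        exact hi
  obtain ⟨-, f, hf⟩ := hpp
  refine ⟨fun i => ⋃ y ∈ F i, f y, fun i => isOpen_biUnion fun y _ => (hf y trivial).1,
    fun i y hy => mem_biUnion hy (hf y trivial).2.1, ?_⟩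
  intro i j hij
  rw [Set.disjoint_left]
  intro z hzi hzj
  obtain ⟨y, hy, hzy⟩ := mem_iUnion₂.1 hzi
  obtain ⟨y', hy', hzy'⟩ := mem_iUnion₂.1 hzj
  obtain ⟨-, hyy, -, ⟨G, ⟨l, rfl⟩, hG⟩, hf1⟩ := hf y trivial
  obtain ⟨-, hyy', -, -, hf2⟩ := hf y' trivial
  have e : f y' = f y := by rw [← hf1 z hzy, ← hf2 z hzy']
  have h1 : i = l := by
    by_contra hne
    exact hG hyy ((hmemK l y).2 ⟨i, hne, hy⟩)
  have h2 : j = l := by
    by_contra hne
    rw [e] at hyy'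
    exact hG hyy' ((hmemK l y').2 ⟨j, hne, hy'⟩)
  exact hij (h1.trans h2.symm)

end CWG
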