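import Pool.Agent.Work.MP_8b5b22_gt.G.UF

/-!
# Module NM (M): the space is not metrizable

Suppose `XX L` is metrizable; use a metric `TopologicalSpace.metrizableSpaceMetric` inducing the
topology.  For `l : ℕ` and `d : Ω` let
`F l d = {x | x 0 = d ∧ ∀ y, dist x y < 1/(l+1) → y 0 ≤ d}`.
(1) For fixed `l` two points `x, y` in different members `F l d`, `F l e` have
`dist x y ≥ 1/(l+1)` (say `d < e`: `y 0 = e > d`).  So the family `d ↦ F l d` is discrete: the
ball of radius `1/(2(l+1))` about a point meets at most one member.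
(2) `F l d` is closed: `{x | x 0 = d}` is closed, because its complement is open by `coord_open`
for `{z | z ≠ d}` (`z < d`: `U z 0 ⊆ Iic z` misses `d`; `z > d`: `L.low`).  If `x` is in the
closure of `F l d`, `x 0 = d`, and for `y` with `dist x y < 1/(l+1)` there is `x' ∈ F l d` with
`dist x' y < 1/(l+1)` (take `x'` very near to `x`), so `y 0 ≤ d`.
(3) `⋃ l d, F l d = univ`: let `x` be a point, `d = x 0`; `{y | y 0 ≤ d}` is open (`coord_open` for
`Iic d`: `U z 0 ⊆ Iic z`), so it contains a ball about `x` of some radius `1/(l+1)`.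
(4) `univ` is not good at the empty node (`not_good_univ`, `inc_nil`), so by `good_of_cover` for
`G l = ⋃ d, F l d` some `⋃ d, F l d` is not good at `nil Ω`.  By `uf` there is `d` with `F l d` not
good at `nil Ω`.  But `F l d ⊆ {x | x 0 = d}` is good there: `m = 0`, `k = 0`, `D = Ioi d`
(`club_Ioi`): `y (0 + 0) = d ∉ Ioi d`.  Contradiction.
-/

open Set
open scoped Topology

namespace CWG

variable {Ω : Type} [LinearOrder Ω] [WellFoundedLT Ω]

theorem not_metrizable (hO : Om Ω) (L : NS Ω) : ¬ TopologicalSpace.MetrizableSpace (XX L) := by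
  intro hm
  let _ : MetricSpace (XX L) := TopologicalSpace.metrizableSpaceMetric (XX L)
  obtain ⟨F, hFd⟩ : ∃ F : ℕ → Ω → Set (XX L), ∀ l d x, x ∈ F l d ↔
      (x.1 0 = d ∧ ∀ y : XX L, dist x y < 1 / ((l : ℝ) + 1) → y.1 0 ≤ d) :=
    ⟨fun l d => {x | x.1 0 = d ∧ ∀ y : XX L, dist x y < 1 / ((l : ℝ) + 1) → y.1 0 ≤ d},
      fun _ _ _ => Iff.rfl⟩
  have hdisc : ∀ l : ℕ, ∀ x : XX L, ∃ U ∈ 𝓝 x, ∀ i j, (F l i ∩ U).Nonempty →
      (F l j ∩ U).Nonempty → i = j := by
    intro l x
    have hpos : (0 : ℝ) < 1 / ((l : ℝ) + 1) / 2 := by positivity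
    refine ⟨Metric.ball x (1 / ((l : ℝ) + 1) / 2), Metric.ball_mem_nhds x hpos, ?_⟩
    rintro i j ⟨a, ha, haU⟩ ⟨b, hb, hbU⟩
    rw [hFd] at ha hb
    have h1 : dist a b < 1 / ((l : ℝ) + 1) := by
      have := dist_triangle a x b
      have h2 : dist a x < 1 / ((l : ℝ) + 1) / 2 := haU
      have h3 : dist x b < 1 / ((l : ℝ) + 1) / 2 := by
        rw [dist_comm]
        exact hbU
      linarith
    have h2 : dist b a < 1 / ((l : ℝ) + 1) := by rwa [dist_comm]
    have h3 := ha.2 b h1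
    have h4 := hb.2 a h2
    rw [hb.1] at h3
    rw [ha.1] at h4
    exact le_antisymm h4 h3
  have hcoord : ∀ d : Ω, IsClosed {x : XX L | x.1 0 = d} := by
    intro d
    rw [← isOpen_compl_iff]
    have e : ({x : XX L | x.1 0 = d}ᶜ : Set (XX L)) = {x : XX L | x.1 0 ∈ {z | z ≠ d}} := rfl
    rw [e]
    apply coord_open
    intro z hz
    rcases lt_or_gt_of_ne hz with h | h
    · exact ⟨0, fun w hw => ((L.le _ _ _ hw).trans_lt h).ne⟩
    · obtain ⟨k, hk⟩ := L.low z d h
      exact ⟨k, fun w hw => (hk w hw).ne'⟩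
  have hclosed : ∀ l d, IsClosed (F l d) := by
    intro l d
    rw [← closure_subset_iff_isClosed]
    intro x hx
    rw [hFd]
    constructor
    · have h1 : F l d ⊆ {x : XX L | x.1 0 = d} := fun y hy => ((hFd l d y).1 hy).1
      exact closure_minimal h1 (hcoord d) hx
    · intro y hy
      obtain ⟨x', hx', h2⟩ := Metric.mem_closure_iff.1 hx (1 / ((l : ℝ) + 1) - dist x y)
        (by linarith)
      apply ((hFd l d x').1 hx').2
      have := dist_triangle x' x y
      rw [dist_comm x' x] at this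
      linarith
  have hcov : (univ : Set (XX L)) ⊆ ⋃ l, ⋃ d, F l d := by
    intro x _
    have hop : IsOpen {y : XX L | y.1 0 ∈ Iic (x.1 0)} := by
      apply coord_open
      intro z hz
      exact ⟨0, fun w hw => (L.le _ _ _ hw).trans hz⟩
    obtain ⟨ε, hε, hball⟩ := Metric.isOpen_iff.1 hop x (le_refl (x.1 0))
    obtain ⟨l, hl⟩ := exists_nat_one_div_lt hε
    refine mem_iUnion.2 ⟨l, mem_iUnion.2 ⟨x.1 0, ?_⟩⟩
    rw [hFd]
    refine ⟨rfl, fun y hy => ?_⟩
    have h1 : y ∈ Metric.ball x ε := by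
      rw [Metric.mem_ball, dist_comm]
      exact hy.trans hl
    exact hball h1
  have hbad : ∃ l, ¬ Good (⋃ d, F l d) (nil Ω) := by
    by_contra hcon
    push Not at hcon
    exact not_good_univ hO (L := L) (inc_nil (Ω := Ω))
      (good_of_cover hO univ isClosed_univ _ hcov inc_nil hcon)
  obtain ⟨l, hl⟩ := hbad
  obtain ⟨d, hd, -⟩ := uf hO (F l) (hclosed l) (hdisc l) inc_nil hl
  apply hd
  refine ⟨0, 0, Ioi d, club_Ioi hO d, fun y hy _ hall => ?_⟩
  have h1 : d < y.1 (0 + 0) := hall 0 le_rfl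
  have h2 : y.1 0 = d := ((hFd l d y).1 hy).1
  rw [h2] at h1
  exact lt_irrefl _ h1

end CWG
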