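import Pool.Agent.Work.MP_8b5b22_gt.G.NSMain
import Pool.Agent.Work.MP_8b5b22_gt.G.CWN
import Pool.Agent.Work.MP_8b5b22_gt.G.NM

/-!
# Assembly
-/

open Set
open scoped Topology

namespace CWG

theorem main (Ω : Type) [LinearOrder Ω] [WellFoundedLT Ω] (hO : Om Ω) (h : Sharp Ω) :
    ∃ (X : Type) (_ : TopologicalSpace X), T1Space X ∧
      (∀ (ι : Type) (F : ι → Set X), (∀ i, IsClosed (F i)) →
        (∀ x : X, ∃ U ∈ 𝓝 x, ∀ i j, (F i ∩ U).Nonempty → (F j ∩ U).Nonempty → i = j) →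
        ∃ V : ι → Set X, (∀ i, IsOpen (V i)) ∧ (∀ i, F i ⊆ V i) ∧
          Pairwise (fun i j => Disjoint (V i) (V j))) ∧
      (∃ B : ℕ → Set (Set X), TopologicalSpace.IsTopologicalBasis (⋃ n, B n) ∧
        ∀ n, ∀ x : X, ∃ U ∈ 𝓝 x, {b ∈ B n | (b ∩ U).Nonempty}.Countable) ∧
      ¬ TopologicalSpace.MetrizableSpace X := by
  obtain ⟨L⟩ := ns_of_sharp hO h
  exact ⟨XX L, inferInstance, t1 L, fun ι F hF hd => cwn hO L ι F hF hd, base L hO,
    not_metrizable hO L⟩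

end CWG
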