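import Pool.Agent.Work.MP_8b5b22_gt.G.Defs

/-!
# Module ClubA (M): closed unbounded subsets of a well order of type `ω₁`

`Club C` (Defs) : `C` is unbounded and contains every nonzero `a` which is a limit of `C`.
Everything follows from `close_off`.

* `ub`: `⋃ a ∈ A, Iic a` is countable (`Iic a` is `Iio a` plus one point), so it is not `univ`;
  a point `b` outside is a strict upper bound.  `gt`: apply `ub` to `{a}`.
* `close_off`: put `H z :=` a strict upper bound (by `ub`) of the countable set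
  `{z} ∪ G '' Iic z`, so `z < H z` and `G w < H z` for all `w ≤ z`.  Let `a₀ = a`,
  `aₙ₊₁ = H aₙ` and `d :=` the least `d` with `∀ n, aₙ < d` (`WellFounded.min`, nonempty by `ub`
  for `range a`).  If `z < d` then by minimality `z ≤ aₙ` for some `n`, so `G z < aₙ₊₁ < d` and
  `z ≤ aₙ < aₙ₊₁ < d` (take `w = aₙ₊₁`).
* `close_seq`: the same for countably many functions: for `G : ℕ → Ω → Ω` apply `close_off` to
  `z ↦` a strict upper bound of `{G n z | n}`.
* `club_closed`: unbounded by `close_off`; closed: if `d` is a limit of points closed under `G`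
  and `z < d`, take `c` closed under `G`, `z < c < d`; then `G z < c < d`.
* `club_iInter`: for each `n` let `G n z` be a member of `C n` above `z`; by `close_seq` there is
  `d > a` such that for `z < d`, `G n z < d`; so `d` is a limit of each `C n` and `d` is in all
  of them.  Closedness of the intersection is immediate (a limit of `⋂ C n` is a limit of `C n`).
* `club_biInter`: `T` empty: `univ`; otherwise enumerate `T` (`Set.Countable.exists_eq_range`)
  and use `club_iInter`.
* `club_diag`: unbounded: let `N a z` be a member of `C a` above `z` and `G z :=` a strict upper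
  bound of `{N a z | a ≤ z}`; take `d > b` from `close_off`.  If `a < d` and `e < d`, put
  `z = max a e < d`; then `N a z ∈ C a`, `e < N a z < G z < d`.  So `d ∈ C a`.  Closed: let `d`
  be a limit of the diagonal intersection and `a < d`; every `b < d` has a member `c` of the
  diagonal intersection with `max a b < c < d`, and `c ∈ C a` since `a < c`.
* `club_lim`: unbounded: `close_off` with `G z :=` a member of `C` above `z`
  (`d > a` so `d` is nonzero).  Closed: a limit of limit points is a limit point.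
-/

open Set

namespace CWG

variable {Ω : Type} [LinearOrder Ω] [WellFoundedLT Ω]

private theorem ClubA_Iic (hO : Om Ω) (z : Ω) : (Iic z).Countable := by
  rw [← Iio_insert]
  exact (hO.1 z).insert z

theorem ub (hO : Om Ω) {A : Set Ω} (hA : A.Countable) : ∃ b, ∀ a ∈ A, a < b := by
  by_contra h
  push Not at h
  apply hO.2
  have h1 : (univ : Set Ω) ⊆ ⋃ a ∈ A, Iic a := fun b _ => by
    obtain ⟨a, ha, hb⟩ := h b
    exact mem_biUnion ha hb
  exact (hA.biUnion fun a _ => ClubA_Iic hO a).mono h1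

theorem gt (hO : Om Ω) (a : Ω) : ∃ b, a < b := by
  obtain ⟨b, hb⟩ := ub hO (countable_singleton a)
  exact ⟨b, hb a rfl⟩

theorem close_off (hO : Om Ω) (G : Ω → Ω) (a : Ω) :
    ∃ d, a < d ∧ ∀ z < d, G z < d ∧ ∃ w, z < w ∧ w < d := by
  have hH : ∀ z, ∃ b, z < b ∧ ∀ w ≤ z, G w < b := by
    intro z
    obtain ⟨b, hb⟩ := ub hO (((ClubA_Iic hO z).image G).insert z)
    exact ⟨b, hb _ (mem_insert _ _), fun w hw =>
      hb _ (mem_insert_of_mem _ (mem_image_of_mem G hw))⟩
  choose H hH1 hH2 using hH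
  let s : ℕ → Ω := fun n => Nat.rec a (fun _ x => H x) n
  have hs : ∀ n, s (n + 1) = H (s n) := fun n => rfl
  obtain ⟨b, hb⟩ := ub hO (countable_range s)
  have hne : {d | ∀ n, s n < d}.Nonempty := ⟨b, fun n => hb _ (mem_range_self n)⟩
  set d := WellFounded.min wellFounded_lt _ hne with hd
  have hdm : ∀ n, s n < d := WellFounded.min_mem wellFounded_lt _ hne
  refine ⟨d, hdm 0, fun z hz => ?_⟩
  obtain ⟨n, hn⟩ : ∃ n, z ≤ s n := by
    by_contra hcon
    push Not at hcon
    have h1 : z ∈ {d | ∀ n, s n < d} := hcon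
    exact WellFounded.not_lt_min wellFounded_lt _ h1 hz
  exact ⟨(hH2 (s n) z hn).trans (hdm (n + 1)), s (n + 1), hn.trans_lt (hH1 _), hdm (n + 1)⟩

theorem close_seq (hO : Om Ω) (G : ℕ → Ω → Ω) (a : Ω) :
    ∃ d, a < d ∧ ∀ z < d, (∀ n, G n z < d) ∧ ∃ w, z < w ∧ w < d := by
  have hH : ∀ z, ∃ b, ∀ n, G n z < b := by
    intro z
    obtain ⟨b, hb⟩ := ub hO (countable_range fun n => G n z)
    exact ⟨b, fun n => hb _ (mem_range_self n)⟩
  choose H hH using hH
  obtain ⟨d, hd, h⟩ := close_off hO H a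
  exact ⟨d, hd, fun z hz => ⟨fun n => (hH z n).trans (h z hz).1, (h z hz).2⟩⟩

theorem club_univ (hO : Om Ω) : Club (univ : Set Ω) :=
  ⟨fun a => by
    obtain ⟨b, hb⟩ := gt hO a
    exact ⟨b, trivial, hb⟩, fun _ _ _ => trivial⟩

theorem club_Ioi (hO : Om Ω) (a : Ω) : Club (Ioi a) := by
  refine ⟨fun b => ?_, fun d hd h => ?_⟩
  · obtain ⟨c, hc⟩ := ub hO ((countable_singleton b).insert a)
    exact ⟨c, hc a (mem_insert _ _), hc b (mem_insert_of_mem _ rfl)⟩
  · obtain ⟨b, hb⟩ := hd
    obtain ⟨c, hc, _, hcd⟩ := h b hb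
    exact lt_trans hc hcd

theorem club_closed (hO : Om Ω) (G : Ω → Ω) : Club {d | ClosedUnder G d} := by
  refine ⟨fun a => ?_, fun d _ h z hz => ?_⟩
  · obtain ⟨d, hd, h⟩ := close_off hO G a
    exact ⟨d, fun z hz => (h z hz).1, hd⟩
  · obtain ⟨c, hc, hzc, hcd⟩ := h z hz
    exact (hc z hzc).trans hcd

theorem club_iInter (hO : Om Ω) (C : ℕ → Set Ω) (hC : ∀ n, Club (C n)) : Club (⋂ n, C n) := by
  refine ⟨fun a => ?_, fun d hd h => ?_⟩
  · choose g hg1 hg2 using fun (n : ℕ) (z : Ω) => (hC n).1 z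
    obtain ⟨d, hd, h⟩ := close_seq hO g a
    refine ⟨d, mem_iInter.2 fun n => ?_, hd⟩
    exact (hC n).2 d ⟨a, hd⟩ fun b hb => ⟨g n b, hg1 n b, hg2 n b, (h b hb).1 n⟩
  · refine mem_iInter.2 fun n => (hC n).2 d hd fun b hb => ?_
    obtain ⟨c, hc, h1, h2⟩ := h b hb
    exact ⟨c, mem_iInter.1 hc n, h1, h2⟩

theorem club_inter (hO : Om Ω) {C D : Set Ω} (hC : Club C) (hD : Club D) : Club (C ∩ D) := by
  have h := club_iInter hO (fun n => if n = 0 then C else D) (by
    intro n
    split_ifs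
    exacts [hC, hD])
  have e : (⋂ n : ℕ, if n = 0 then C else D) = C ∩ D := by
    ext x
    rw [mem_iInter]
    constructor
    · intro hx
      have h0 := hx 0
      have h1 := hx 1
      rw [if_pos rfl] at h0
      rw [if_neg one_ne_zero] at h1
      exact ⟨h0, h1⟩
    · rintro ⟨h0, h1⟩ n
      split_ifs
      exacts [h0, h1]
  rwa [e] at h

theorem club_biInter (hO : Om Ω) {ι : Type*} {T : Set ι} (hT : T.Countable) (C : ι → Set Ω)
    (hC : ∀ i ∈ T, Club (C i)) : Club (⋂ i ∈ T, C i) := by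
  rcases T.eq_empty_or_nonempty with rfl | hne
  · have e : (⋂ i ∈ (∅ : Set ι), C i) = univ := by simp
    rw [e]
    exact club_univ hO
  · obtain ⟨f, hf⟩ := hT.exists_eq_range hne
    have e : (⋂ i ∈ T, C i) = ⋂ n, C (f n) := by
      rw [hf, biInter_range]
    rw [e]
    exact club_iInter hO _ fun n => hC _ (by rw [hf]; exact mem_range_self n)

theorem club_diag (hO : Om Ω) (C : Ω → Set Ω) (hC : ∀ a, Club (C a)) :
    Club {d | ∀ a < d, d ∈ C a} := by
  refine ⟨fun b => ?_, fun d _ h a ha => ?_⟩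
  · choose g hg1 hg2 using fun (a : Ω) (z : Ω) => (hC a).1 z
    have hH : ∀ z, ∃ c, ∀ a ≤ z, g a z < c := by
      intro z
      obtain ⟨c, hc⟩ := ub hO ((ClubA_Iic hO z).image fun a => g a z)
      exact ⟨c, fun a ha => hc _ (mem_image_of_mem (fun a => g a z) ha)⟩
    choose H hH using hH
    obtain ⟨d, hd, h⟩ := close_off hO H b
    refine ⟨d, fun a ha => ?_, hd⟩
    refine (hC a).2 d ⟨b, hd⟩ fun e he => ?_
    have hz : max a e < d := max_lt ha he
    exact ⟨g a (max a e), hg1 _ _, (le_max_right a e).trans_lt (hg2 _ _),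
      (hH _ a (le_max_left a e)).trans (h _ hz).1⟩
  · refine (hC a).2 d ⟨a, ha⟩ fun b hb => ?_
    obtain ⟨c, hc, h1, h2⟩ := h (max a b) (max_lt ha hb)
    exact ⟨c, hc a ((le_max_left a b).trans_lt h1), (le_max_right a b).trans_lt h1, h2⟩

/-- limit points -/
def LimPt (C : Set Ω) : Set Ω := {d | (∃ b, b < d) ∧ ∀ b < d, ∃ c ∈ C, b < c ∧ c < d}

theorem club_lim (hO : Om Ω) {C : Set Ω} (hC : Club C) : Club (LimPt C) := by
  refine ⟨fun a => ?_, fun d hd h => ⟨hd, fun b hb => ?_⟩⟩
  · choose g hg1 hg2 using hC.1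
    obtain ⟨d, hd, h⟩ := close_off hO g a
    exact ⟨d, ⟨⟨a, hd⟩, fun b hb => ⟨g b, hg1 b, hg2 b, (h b hb).1⟩⟩, hd⟩
  · obtain ⟨e, he, h1, h2⟩ := h b hb
    obtain ⟨c, hc, h3, h4⟩ := he.2 b h1
    exact ⟨c, hc, h3, h4.trans h2⟩

theorem lim_sub {C : Set Ω} (hC : Club C) : LimPt C ⊆ C :=
  fun d hd => hC.2 d hd.1 hd.2

end CWG
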