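import Pool.Agent.Work.MP_8b5b22_gt.G.ClubA

/-!
# Module ClubB (S): stationary sets

* `stat_mono`, `not_stat`: from the definition (`Stat A`: `A` meets every club).
* `stat_inter_club`: `club_inter`.
* `stat_iUnion`: otherwise there are clubs `C n` missing `A n` (`not_stat`); the club `⋂ n, C n`
  misses the union.
* `fodor`: otherwise for each `v` there is a club `C v` missing `{d ∈ A | r d = v}`; let `d` be in
  `A` and in the diagonal intersection of the `C v` (`club_diag`); with `v = r d < d`, `d ∈ C v`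
  and `d ∈ A`, `r d = v`: contradiction.
* `stat_gt`: `A ∩ Ioi a` is nonempty.
-/

open Set

namespace CWG

variable {Ω : Type} [LinearOrder Ω] [WellFoundedLT Ω]

theorem stat_mono {A B : Set Ω} (h : A ⊆ B) (hA : Stat A) : Stat B := by
  intro C hC
  obtain ⟨x, hx, hx'⟩ := hA C hC
  exact ⟨x, h hx, hx'⟩

theorem not_stat {A : Set Ω} : ¬ Stat A ↔ ∃ C : Set Ω, Club C ∧ ∀ a ∈ C, a ∉ A := by
  constructor
  · intro h
    unfold Stat at h
    push Not at h
    obtain ⟨C, hC, h⟩ := h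
    refine ⟨C, hC, fun a ha haA => ?_⟩
    have h1 : a ∈ A ∩ C := ⟨haA, ha⟩
    rw [h] at h1
    exact h1
  · rintro ⟨C, hC, h⟩ hA
    obtain ⟨a, ha, haC⟩ := hA C hC
    exact h a haC ha

theorem stat_inter_club (hO : Om Ω) {A C : Set Ω} (hA : Stat A) (hC : Club C) :
    Stat (A ∩ C) := by
  intro D hD
  obtain ⟨x, hx, h1, h2⟩ := hA _ (club_inter hO hC hD)
  exact ⟨x, ⟨hx, h1⟩, h2⟩

theorem stat_iUnion (hO : Om Ω) (A : ℕ → Set Ω) (h : Stat (⋃ n, A n)) : ∃ n, Stat (A n) := by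
  by_contra hcon
  push Not at hcon
  have h1 : ∀ n, ∃ C : Set Ω, Club C ∧ ∀ a ∈ C, a ∉ A n := fun n => not_stat.1 (hcon n)
  choose C hC hCA using h1
  obtain ⟨x, hx, hxC⟩ := h _ (club_iInter hO C hC)
  obtain ⟨n, hn⟩ := mem_iUnion.1 hx
  exact hCA n x (mem_iInter.1 hxC n) hn

theorem fodor (hO : Om Ω) {A : Set Ω} (hA : Stat A) (r : Ω → Ω) (hr : ∀ d ∈ A, r d < d) :
    ∃ v, Stat {d | d ∈ A ∧ r d = v} := by
  by_contra hcon
  push Not at hcon
  have h1 : ∀ v, ∃ C : Set Ω, Club C ∧ ∀ a ∈ C, a ∉ {d | d ∈ A ∧ r d = v} := fun v =>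
    not_stat.1 (hcon v)
  choose C hC hCA using h1
  obtain ⟨d, hd, hdC⟩ := hA _ (club_diag hO C hC)
  exact hCA (r d) d (hdC (r d) (hr d hd)) ⟨hd, rfl⟩

theorem stat_gt (hO : Om Ω) {A : Set Ω} (hA : Stat A) (a : Ω) : ∃ b ∈ A, a < b := by
  obtain ⟨b, hb, h⟩ := hA _ (club_Ioi hO a)
  exact ⟨b, hb, h⟩

end CWG
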