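import Mathlib

/-!
# MP_8b5b22_gt, folder G: a (consistent) collectionwise normal space with a sigma-locally
# countable base which is not metrizable.  Definitions.

`Ω` is a well ordered set of order type `ω₁`: uncountable, all initial segments countable.
-/

open Set

namespace CWG

variable {Ω : Type} [LinearOrder Ω]

/-- `Ω` has the order type of the first uncountable ordinal: initial segments are countable and
`Ω` is not countable. -/
def Om (Ω : Type) [LinearOrder Ω] : Prop :=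
  (∀ a : Ω, (Iio a).Countable) ∧ ¬ (univ : Set Ω).Countable

/-- closed unbounded subset -/
def Club (C : Set Ω) : Prop :=
  (∀ a, ∃ b ∈ C, a < b) ∧
    ∀ a, (∃ b, b < a) → (∀ b < a, ∃ c ∈ C, b < c ∧ c < a) → a ∈ C

/-- stationary subset -/
def Stat (A : Set Ω) : Prop := ∀ C, Club C → (A ∩ C).Nonempty

/-- `ξ` is closed under `F` -/
def ClosedUnder (F : Ω → Ω) (ξ : Ω) : Prop := ∀ ζ < ξ, F ζ < ξ

/-- A form of diamond sharp: there are countable families `M δ` of functions such that every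
function is guessed at all points of a closed unbounded set, and for every countable family of
stationary sets `A n` there is a (nonzero) `δ` at which all the `A n` look stationary for `M δ`:
they contain arbitrarily large elements below `δ` closed under any finitely many members of
`M δ` under which `δ` is closed. -/
def Sharp (Ω : Type) [LinearOrder Ω] : Prop :=
  ∃ M : Ω → Set (Ω → Ω), (∀ δ, (M δ).Countable) ∧
    (∀ F : Ω → Ω, ∃ C : Set Ω, Club C ∧ ∀ δ ∈ C, ∃ F' ∈ M δ, ∀ ζ < δ, F' ζ = F ζ) ∧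
    (∀ A : ℕ → Set Ω, (∀ n, Stat (A n)) → ∃ δ : Ω, (∃ γ, γ < δ) ∧
      ∀ n, ∀ Φ : Set (Ω → Ω), Φ.Finite → Φ ⊆ M δ → (∀ F ∈ Φ, ClosedUnder F δ) →
        ∀ γ < δ, ∃ ξ ∈ A n, γ < ξ ∧ ξ < δ ∧ ∀ F ∈ Φ, ClosedUnder F ξ)

/-- Ladders: `S` a set, `η δ` (`δ ∈ S`) an increasing cofinal sequence in `δ`, `m δ` bounds, with
strong club guessing `guess`, domination `dom`, and simultaneous guessing of stationary sets
`hit`. -/
structure Lad (Ω : Type) [LinearOrder Ω] where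
  S : Set Ω
  η : Ω → ℕ → Ω
  m : Ω → ℕ → ℕ
  mono : ∀ δ ∈ S, StrictMono (η δ)
  lt : ∀ δ ∈ S, ∀ j, η δ j < δ
  cof : ∀ δ ∈ S, ∀ γ < δ, ∃ j, γ < η δ j
  guess : ∀ C : Set Ω, Club C → ∃ D : Set Ω, Club D ∧ ∀ δ ∈ D ∩ S, ∃ j₀, ∀ j, j₀ ≤ j → η δ j ∈ C
  dom : ∀ g : Ω → ℕ, ∃ D : Set Ω, Club D ∧ ∀ δ ∈ D ∩ S, ∃ j₀, ∀ j, j₀ ≤ j → g (η δ j) ≤ m δ j
  hit : ∀ A : ℕ → Set Ω, (∀ n, Stat (A n)) → ∃ δ ∈ S, ∀ n, ∀ i, ∃ j, i ≤ j ∧ η δ j ∈ A n

/-- `F` is closed for the neighbourhood assignment `U` -/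
def Cl (U : Ω → ℕ → Set Ω) (F : Set Ω) : Prop := ∀ δ, (∀ k, (F ∩ U δ k).Nonempty) → δ ∈ F

/-- A neighbourhood system on `Ω`: the sets `U δ k` are a decreasing base of clopen
neighbourhoods of `δ` contained in intervals `(a, δ]`; `P1` : every club is a neighbourhood of
club many points; `P3` : countably many closed stationary sets meet in every club. -/
structure NS (Ω : Type) [LinearOrder Ω] where
  U : Ω → ℕ → Set Ω
  self : ∀ δ k, δ ∈ U δ k
  le : ∀ δ k, ∀ z ∈ U δ k, z ≤ δ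
  anti : ∀ δ k l, k ≤ l → U δ l ⊆ U δ k
  low : ∀ δ a, a < δ → ∃ k, ∀ z ∈ U δ k, a < z
  opn : ∀ δ k, ∀ z ∈ U δ k, ∃ l, U z l ⊆ U δ k
  cls : ∀ δ k z, z ∉ U δ k → ∃ l, Disjoint (U z l) (U δ k)
  P1 : ∀ C : Set Ω, Club C → ∃ D : Set Ω, Club D ∧ ∀ δ ∈ D, ∃ k, U δ k ⊆ C
  P3 : ∀ F : ℕ → Set Ω, (∀ n, Cl U (F n)) → (∀ n, Stat (F n)) → ∀ C : Set Ω, Club C →
    ∃ δ ∈ C, ∀ n, δ ∈ F n

/-- The space: strictly increasing sequences. -/
def XX (_L : NS Ω) : Type := {x : ℕ → Ω // StrictMono x}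

variable (L : NS Ω)

/-- The basic set of the node `s`. -/
def Nd {n : ℕ} (s : Fin n → Ω) (k : ℕ) : Set (XX L) :=
  {y | ∀ i : Fin n, y.1 i ∈ L.U (s i) k ∧ s i < y.1 (i + 1)}

/-- The first `n` coordinates. -/
def tr {L : NS Ω} (x : XX L) (n : ℕ) : Fin n → Ω := fun i => x.1 i

/-- The topology: `G` is open iff for every `x ∈ G` some `Nd (tr x n) k` is contained in `G`. -/
instance : TopologicalSpace (XX L) where
  IsOpen G := ∀ x ∈ G, ∃ n k, Nd L (tr x n) k ⊆ G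
  isOpen_univ := fun _ _ => ⟨0, 0, subset_univ _⟩
  isOpen_inter := by
    intro G H hG hH x hx
    obtain ⟨n, k, h⟩ := hG x hx.1
    obtain ⟨n', k', h'⟩ := hH x hx.2
    have key : ∀ n k n' k', n ≤ n' → k ≤ k' → Nd L (tr x n') k' ⊆ Nd L (tr x n) k := by
      intro n k n' k' hn hk y hy i
      have h2 := hy ⟨i, lt_of_lt_of_le i.2 hn⟩
      exact ⟨L.anti _ _ _ hk h2.1, h2.2⟩
    exact ⟨max n n', max k k', subset_inter
      ((key _ _ _ _ (le_max_left _ _) (le_max_left _ _)).trans h)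
      ((key _ _ _ _ (le_max_right _ _) (le_max_right _ _)).trans h')⟩
  isOpen_sUnion := by
    intro 𝒮 h x hx
    obtain ⟨G, hG, hxG⟩ := hx
    obtain ⟨n, k, h2⟩ := h G hG x hxG
    exact ⟨n, k, h2.trans (subset_sUnion_of_mem hG)⟩

/-- `s` is an increasing node. -/
def Inc {n : ℕ} (s : Fin n → Ω) : Prop := ∀ i j : Fin n, i < j → s i < s j

/-- `t` is a node near `s`. -/
def Near {n : ℕ} (s : Fin n → Ω) (k : ℕ) (t : Fin n → Ω) : Prop :=
  (∀ i, t i ∈ L.U (s i) k) ∧ ∀ i j : Fin n, i < j → s i < t j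

variable {L}

/-- `F` is avoided near the node `s` by all sequences whose next `m + 1` terms are in a club. -/
def MGood (F : Set (XX L)) {n : ℕ} (s : Fin n → Ω) (m : ℕ) : Prop :=
  ∃ k, ∃ D : Set Ω, Club D ∧ ∀ y ∈ F, y ∈ Nd L s k → ¬ ∀ i ≤ m, y.1 (n + i) ∈ D

/-- `F` is small near the node `s`. -/
def Good (F : Set (XX L)) {n : ℕ} (s : Fin n → Ω) : Prop := ∃ m, MGood F s m

/-- `Y` is clopen and has a partition into open sets each contained in a member of `𝒢`; the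
partition is given by the function `f` which assigns to a point its piece. -/
def PP (𝒢 : Set (Set (XX L))) (Y : Set (XX L)) : Prop :=
  IsClopen Y ∧ ∃ f : XX L → Set (XX L), ∀ y ∈ Y, IsOpen (f y) ∧ y ∈ f y ∧ f y ⊆ Y ∧
    (∃ G ∈ 𝒢, f y ⊆ G) ∧ ∀ z ∈ f y, f z = f y

end CWG
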