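import Pool.Agent.Work.MP_8b5b22_gt.G.Node

/-!
# Module Top (M): the topology of `XX L`

`G` is open iff for all `x ∈ G` there are `n, k` with `Nd L (tr x n) k ⊆ G` (this is `Iff.rfl`).
`y ∈ Nd L s k` iff `∀ i : Fin n, y i ∈ U (s i) k ∧ s i < y (i+1)`.

* `mem_nd`: `L.self` and monotonicity.  `nd_anti`: `L.anti`.
* `nd_open`: let `y ∈ Nd L s k`.  For each `i < n`: `L.opn` gives `l` with
  `U (y i) l ⊆ U (s i) k`, and `L.low` applied to `s i < y (i+1)` gives `l'` with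
  `U (y (i+1)) l'` above `s i`.  Let `l` be a common upper bound for all `i : Fin n`
  (`Finset.sup univ` or `Finset.exists_le`); then `Nd L (tr y (n+1)) l ⊆ Nd L s k`: for `z` in it,
  `z i ∈ U (y i) l` for all `i ≤ n`.
* `nd_closed`: if `y ∉ Nd L s k`, there is `i` with `y i ∉ U (s i) k`: `L.cls` gives `l` and
  `Nd L (tr y (i+1)) l` is disjoint from `Nd L s k`; or with `y (i+1) ≤ s i`: `z ∈ Nd L (tr y (i+2)) 0`
  has `z (i+1) ≤ y (i+1) ≤ s i` (`L.le`).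
* `coord_open`: if `x l ∈ Q` and `U (x l) k ⊆ Q` then `Nd L (tr x (l+1)) k ⊆ {x | x l ∈ Q}`.
* `t1`: `{x}ᶜ` is open: let `y ≠ x` and let `i` be such that `y i ≠ x i`.  If `x i < y i`, `L.low`
  gives `k` with `U (y i) k` above `x i`; if `y i < x i` take `k = 0` (`L.le`).  In both cases
  `x ∉ Nd L (tr y (i+1)) k`.
* `base`: for `p : ℕ` with `(n, k) = Nat.unpair p` let
  `B p = {b | ∃ s : Fin n → Ω, Inc s ∧ b = Nd L s k}`.  The union is a base
  (`TopologicalSpace.isTopologicalBasis_of_isOpen_of_nhds`; `inc_tr`).  Local countability at `x`: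
  take the neighbourhood `Nd L (tr x (n+1)) 0`: if `z` is in it and in `Nd L s k` then
  `s i < z (i+1) ≤ x (i+1)` for `i + 1 ≤ n`, i.e. all `i : Fin n`, so `s` is in the product of the
  countable sets `Iio (x (i+1))` (`Set.countable_univ_pi`, `hO.1`), and the members of `B p`
  meeting it are in the image of this countable set.
-/

open Set TopologicalSpace
open scoped Topology

namespace CWG

variable {Ω : Type} [LinearOrder Ω] (L : NS Ω)

theorem open_iff (G : Set (XX L)) : IsOpen G ↔ ∀ x ∈ G, ∃ n k, Nd L (tr x n) k ⊆ G := Iff.rfl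

theorem mem_nd (x : XX L) (n k : ℕ) : x ∈ Nd L (tr x n) k :=
  fun i => ⟨L.self _ _, x.2 (Nat.lt_succ_self i.1)⟩

theorem nd_anti (x : XX L) {n k n' k' : ℕ} (hn : n ≤ n') (hk : k ≤ k') :
    Nd L (tr x n') k' ⊆ Nd L (tr x n) k := by
  intro y hy i
  have h2 := hy ⟨i, lt_of_lt_of_le i.2 hn⟩
  exact ⟨L.anti _ _ _ hk h2.1, h2.2⟩

theorem nd_anti' {n : ℕ} (s : Fin n → Ω) {k k' : ℕ} (hk : k ≤ k') : Nd L s k' ⊆ Nd L s k :=
  fun _ hy i => ⟨L.anti _ _ _ hk (hy i).1, (hy i).2⟩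

theorem nd_open {n : ℕ} (s : Fin n → Ω) (k : ℕ) : IsOpen (Nd L s k) := by
  intro y hy
  choose l1 hl1 using fun i : Fin n => L.opn _ _ _ (hy i).1
  choose l2 hl2 using fun i : Fin n => L.low _ _ (hy i).2
  refine ⟨n + 1, max (Finset.univ.sup l1) (Finset.univ.sup l2), fun z hz i => ⟨?_, ?_⟩⟩
  · apply hl1 i
    have h1 := (hz ⟨i.1, by omega⟩).1
    exact L.anti _ _ _ ((Finset.le_sup (f := l1) (Finset.mem_univ i)).trans (le_max_left _ _)) h1
  · apply hl2 i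
    have h1 := (hz ⟨i.1 + 1, by omega⟩).1
    exact L.anti _ _ _ ((Finset.le_sup (f := l2) (Finset.mem_univ i)).trans (le_max_right _ _)) h1

theorem nd_closed {n : ℕ} (s : Fin n → Ω) (k : ℕ) : IsClosed (Nd L s k) := by
  constructor
  intro y hy
  obtain ⟨i, hi⟩ : ∃ i : Fin n, ¬ (y.1 i ∈ L.U (s i) k ∧ s i < y.1 (i + 1)) := by
    by_contra hcon
    push Not at hcon
    exact hy hcon
  by_cases h1 : y.1 i ∈ L.U (s i) k
  · have h2 : y.1 (i + 1) ≤ s i := not_lt.1 fun h => hi ⟨h1, h⟩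
    refine ⟨i + 2, 0, fun z hz hzN => ?_⟩
    have h3 := (hz ⟨i + 1, by omega⟩).1
    have h4 := L.le _ _ _ h3
    exact absurd ((hzN i).2.trans_le h4) (not_lt.2 h2)
  · obtain ⟨l, hl⟩ := L.cls _ _ _ h1
    refine ⟨i + 1, l, fun z hz hzN => ?_⟩
    have h3 := (hz ⟨i, by omega⟩).1
    exact Set.disjoint_left.1 hl h3 (hzN i).1

theorem coord_open (l : ℕ) (Q : Set Ω) (hQ : ∀ d ∈ Q, ∃ k, L.U d k ⊆ Q) :
    IsOpen {x : XX L | x.1 l ∈ Q} := by
  intro x hx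
  obtain ⟨k, hk⟩ := hQ _ hx
  exact ⟨l + 1, k, fun z hz => hk (hz ⟨l, Nat.lt_succ_self l⟩).1⟩

theorem t1 : T1Space (XX L) := by
  refine ⟨fun x => ⟨?_⟩⟩
  intro y hy
  obtain ⟨i, hi⟩ : ∃ i, y.1 i ≠ x.1 i := by
    by_contra hcon
    push Not at hcon
    exact hy (Subtype.ext (funext hcon))
  rcases lt_or_gt_of_ne hi with h | h
  · refine ⟨i + 1, 0, fun z hz hzx => ?_⟩
    have h1 : z = x := hzx
    rw [h1] at hz
    have h2 := L.le _ _ _ (hz ⟨i, Nat.lt_succ_self i⟩).1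
    exact absurd h (not_lt.2 h2)
  · obtain ⟨k, hk⟩ := L.low _ _ h
    refine ⟨i + 1, k, fun z hz hzx => ?_⟩
    have h1 : z = x := hzx
    rw [h1] at hz
    exact lt_irrefl _ (hk _ (hz ⟨i, Nat.lt_succ_self i⟩).1)

theorem base (hO : Om Ω) : ∃ B : ℕ → Set (Set (XX L)), IsTopologicalBasis (⋃ n, B n) ∧
    ∀ n, ∀ x : XX L, ∃ U ∈ 𝓝 x, {b ∈ B n | (b ∩ U).Nonempty}.Countable := by
  refine ⟨fun p => {b | ∃ s : Fin (Nat.unpair p).1 → Ω, Inc s ∧ b = Nd L s (Nat.unpair p).2},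
    ?_, ?_⟩
  · apply isTopologicalBasis_of_isOpen_of_nhds
    · intro b hb
      obtain ⟨p, s, hs, rfl⟩ := mem_iUnion.1 hb
      exact nd_open L s _
    · intro x G hx hG
      obtain ⟨n, k, h⟩ := hG x hx
      refine ⟨Nd L (tr x n) k, mem_iUnion.2 ⟨Nat.pair n k, ?_⟩, mem_nd L x n k, h⟩
      show ∃ s : Fin (Nat.unpair (Nat.pair n k)).1 → Ω, Inc s ∧
        Nd L (tr x n) k = Nd L s (Nat.unpair (Nat.pair n k)).2
      rw [Nat.unpair_pair]
      exact ⟨tr x n, inc_tr x n, rfl⟩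
  · intro p x
    refine ⟨Nd L (tr x ((Nat.unpair p).1 + 1)) 0, (nd_open L _ _).mem_nhds (mem_nd L x _ _), ?_⟩
    have h1 : (Set.pi univ fun i : Fin (Nat.unpair p).1 => Iio (x.1 (i + 1))).Countable :=
      Set.countable_univ_pi fun i => hO.1 _
    refine (h1.image fun s => Nd L s (Nat.unpair p).2).mono ?_
    rintro b ⟨⟨s, hs, rfl⟩, z, hz1, hz2⟩
    refine ⟨s, fun i _ => ?_, rfl⟩
    have h2 := L.le _ _ _ (hz2 ⟨i.1 + 1, by omega⟩).1
    exact (hz1 i).2.trans_le h2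

end CWG
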