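import Pool.Agent.Work.MP_8b5b22_gt.G.ClubB
import Pool.Agent.Work.MP_8b5b22_gt.G.Top

/-!
# Module GoodA (M): elementary properties of good nodes

`MGood F s m`: there are `k` and a club `D` such that no `y ∈ F ∩ Nd L s k` has
`y n, y (n+1), …, y (n+m) ∈ D`.

* `mgood_mono`: fewer requirements are violated: if all `y (n+i) ∈ D` for `i ≤ m'` then for
  `i ≤ m`.  `mgood_anti`, `good_anti`: for smaller `F`.
* `mgood_near`: let `k, D` be for `s`.  Let `t` be near `s` at level `k` (so the conclusion holds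
  with the same `k`).  By `L.opn` and `L.low` there is `k'` with `U (t i) k' ⊆ U (s i) k` for all
  `i` and, for `i + 1 < n`, `U (t (i+1)) k'` above `s i` (as `s i < t (i+1)`).  Let
  `D' = D ∩ ⋂ i, Ioi (s i)` (or intersect with one tail `Ioi b`, `b` an upper bound of the `s i`).
  If `y ∈ F ∩ Nd L t k'` and `y (n+i) ∈ D'` for all `i ≤ m` then `y i ∈ U (s i) k`, and
  `s i < y (i+1)`: for `i + 1 < n` by choice of `k'`, for `i + 1 = n` since `y n ∈ D'`.  So
  `y ∈ Nd L s k` and `y (n+i) ∈ D`: contradiction.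
* `bad_closed`: `Z = {a | (∀ i, s i < a) ∧ ¬ MGood F (sn s a) m}` is closed: let `d` be such that
  all `Z ∩ U d k` are nonempty.  `s i < a ≤ d` for `a ∈ Z ∩ U d 0`.  If `MGood F (sn s d) m` then
  `mgood_near` gives `k`; let `a ∈ Z ∩ U d k`; then `Near (sn s d) k (sn s a)` (`near_sn` with
  `t = s`), so `MGood F (sn s a) m`: contradiction.
* `near_sn`: coordinates: `Fin.lastCases`, `sn_castSucc`, `sn_last`.
* `near_self`: `L.self`, `Inc s`.
* `inter_closed`: if `d` is such that all neighbourhoods meet `⋂ m, Z m`, they meet each `Z m`.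
* `good_sub_closed`: if `F` is closed and `x ∉ F` then for some `n₀` all nodes `tr x n`, `n ≥ n₀`,
  are `MGood F _ 0`: `Fᶜ ⊇ Nd L (tr x n₀) k ⊇ Nd L (tr x n) k`; `D = univ` (`club_univ`).
-/

open Set
open scoped Topology

namespace CWG

variable {Ω : Type} [LinearOrder Ω] [WellFoundedLT Ω] {L : NS Ω}

theorem mgood_mono {F : Set (XX L)} {n : ℕ} {s : Fin n → Ω} {m m' : ℕ} (h : m ≤ m')
    (hm : MGood F s m) : MGood F s m' := by
  obtain ⟨k, D, hD, hy⟩ := hm
  exact ⟨k, D, hD, fun y hyF hyN hall => hy y hyF hyN fun i hi => hall i (hi.trans h)⟩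

theorem mgood_anti {F F' : Set (XX L)} {n : ℕ} {s : Fin n → Ω} {m : ℕ} (h : F ⊆ F')
    (hm : MGood F' s m) : MGood F s m := by
  obtain ⟨k, D, hD, hy⟩ := hm
  exact ⟨k, D, hD, fun y hyF => hy y (h hyF)⟩

theorem good_anti {F F' : Set (XX L)} {n : ℕ} {s : Fin n → Ω} (h : F ⊆ F')
    (hm : Good F' s) : Good F s := by
  obtain ⟨m, hm⟩ := hm
  exact ⟨m, mgood_anti h hm⟩

theorem near_self {n : ℕ} {s : Fin n → Ω} (hs : Inc s) (k : ℕ) : Near L s k s :=
  ⟨fun i => L.self _ _, hs⟩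

theorem near_sn {n : ℕ} {s t : Fin n → Ω} {d a : Ω} {k : ℕ} (h : Near L s k t)
    (ha : a ∈ L.U d k) (hsa : ∀ i, s i < a) : Near L (sn s d) k (sn t a) := by
  constructor
  · intro i
    induction i using Fin.lastCases with
    | last => rw [sn_last, sn_last]; exact ha
    | cast i => rw [sn_castSucc, sn_castSucc]; exact h.1 i
  · intro i j hij
    induction i using Fin.lastCases with
    | last => exact absurd hij (not_lt.2 (Fin.le_last j))
    | cast i =>
      induction j using Fin.lastCases with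
      | last => rw [sn_castSucc, sn_last]; exact hsa i
      | cast j => rw [sn_castSucc, sn_castSucc]; exact h.2 i j (by simpa using hij)

theorem mgood_near (hO : Om Ω) {F : Set (XX L)} {n : ℕ} {s : Fin n → Ω} {m : ℕ}
    (h : MGood F s m) : ∃ k, ∀ t, Near L s k t → MGood F t m := by
  obtain ⟨k, D, hD, hy⟩ := h
  refine ⟨k, fun t ht => ?_⟩
  -- the level
  have h1 : ∀ i : Fin n, ∃ l, L.U (t i) l ⊆ L.U (s i) k := fun i => L.opn _ _ _ (ht.1 i)
  choose l1 hl1 using h1
  have h2 : ∀ i : Fin n, ∃ l, ∀ j : Fin n, j < i → ∀ z ∈ L.U (t i) l, s j < z := by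
    intro i
    have h3 : ∀ j : Fin n, ∃ l, j < i → ∀ z ∈ L.U (t i) l, s j < z := by
      intro j
      by_cases hj : j < i
      · obtain ⟨l, hl⟩ := L.low (t i) (s j) (ht.2 j i hj)
        exact ⟨l, fun _ => hl⟩
      · exact ⟨0, fun h => absurd h hj⟩
    choose l hl using h3
    refine ⟨Finset.univ.sup l, fun j hj z hz => hl j hj z ?_⟩
    exact L.anti _ _ _ (Finset.le_sup (f := l) (Finset.mem_univ j)) hz
  choose l2 hl2 using h2
  obtain ⟨b, hb⟩ := ub hO (Set.countable_range s)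
  set k' := max (Finset.univ.sup l1) (Finset.univ.sup l2) with hk'
  refine ⟨k', D ∩ Ioi b, club_inter hO hD (club_Ioi hO b), fun y hyF hyN hall => ?_⟩
  refine hy y hyF (fun i => ⟨?_, ?_⟩) fun i hi => (hall i hi).1
  · apply hl1 i
    exact L.anti _ _ _ ((Finset.le_sup (f := l1) (Finset.mem_univ i)).trans (le_max_left _ _))
      (hyN i).1
  · by_cases hi : (i : ℕ) + 1 < n
    · have h3 := (hyN ⟨i + 1, hi⟩).1
      refine hl2 ⟨i + 1, hi⟩ i (by simp [Fin.lt_def]) _ ?_
      exact L.anti _ _ _ ((Finset.le_sup (f := l2) (Finset.mem_univ _)).trans (le_max_right _ _)) h3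
    · have h3 : (i : ℕ) + 1 = n := by omega
      have h4 := (hall 0 (Nat.zero_le _)).2
      rw [h3]
      exact (hb _ (mem_range_self i)).trans h4

theorem bad_closed (hO : Om Ω) (F : Set (XX L)) {n : ℕ} {s : Fin n → Ω} (hs : Inc s) (m : ℕ) :
    Cl L.U {a | (∀ i, s i < a) ∧ ¬ MGood F (sn s a) m} := by
  intro d hd
  constructor
  · intro i
    obtain ⟨a, ⟨ha, -⟩, haU⟩ := hd 0
    exact (ha i).trans_le (L.le _ _ _ haU)
  · intro hgood
    obtain ⟨k, hk⟩ := mgood_near hO hgood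
    obtain ⟨a, ⟨ha, hbad⟩, haU⟩ := hd k
    exact hbad (hk _ (near_sn (near_self hs k) haU ha))

theorem inter_closed {Z : ℕ → Set Ω} (h : ∀ m, Cl L.U (Z m)) : Cl L.U (⋂ m, Z m) := by
  intro d hd
  refine mem_iInter.2 fun m => h m d fun k => ?_
  obtain ⟨a, ha, haU⟩ := hd k
  exact ⟨a, mem_iInter.1 ha m, haU⟩

theorem mgood_of_not_mem (hO : Om Ω) {F : Set (XX L)} (hF : IsClosed F) {x : XX L} (hx : x ∉ F) :
    ∃ n₀, ∀ n, n₀ ≤ n → MGood F (tr x n) 0 := by
  obtain ⟨n₀, k, h⟩ := hF.isOpen_compl x hx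
  refine ⟨n₀, fun n hn => ⟨k, univ, club_univ hO, fun y hyF hyN _ => ?_⟩⟩
  refine h (fun i => ?_) hyF
  exact hyN ⟨i, lt_of_lt_of_le i.2 hn⟩

end CWG
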