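import Pool.Agent.Work.MP_8b5b22_gt.G.GoodA

/-!
# Module GoodB (M-L): if almost all successors of a node are good, so is the node

Let `s` be increasing and assume that `{a | (∀ i, s i < a) ∧ ¬ Good F (sn s a)}` is not
stationary.  Then `Good F s`.

Step 1 (one `m`).  Let `Z m = {a | (∀ i, s i < a) ∧ ¬ MGood F (sn s a) m}`.  If all `Z m` were
stationary, then, as they are closed (`bad_closed`), `L.P3` says that `⋂ m, Z m` meets every
club, i.e. is stationary; but it is contained in the set of the hypothesis.  So fix `m` with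
`Z m` not stationary, and a club `C₀` missing it (`not_stat`): for `a ∈ C₀` above `s`,
`MGood F (sn s a) m`.

Step 2 (one `k`).  There is `k` such that for every `t` with `Near L s k t` and `Inc t` the set
`Z' t = {a | (∀ i, t i < a) ∧ ¬ MGood F (sn t a) m}` is not stationary.  Otherwise choose for each
`k` such a `t k` with `Z' (t k)` stationary (and closed, `bad_closed`); let `b` be a strict upper
bound of the finite set `range s` (`ub`); `L.P3` applied to `k ↦ Z' (t k)` and the club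
`C₀ ∩ Ioi b` gives `d` in all of them.  `d ∈ C₀` is above `s` so `MGood F (sn s d) m`;
`mgood_near` gives `k` such that `MGood F (sn (t k) d) m` for the node `sn (t k) d`, which is near
`sn s d` at level `k` (`near_sn`, `L.self`).  But `d ∈ Z' (t k)`: contradiction.

Step 3.  Fix `k`.  Let `K` be the set of all `t` with `Near L s k t`, `Inc t`: it is countable,
as `t i ≤ s i` (`L.le`, `Set.countable_univ_pi` with `Iic (s i)`, which is countable).  For
`t ∈ K` let `C t` be a club missing `Z' t`: for `a ∈ C t` above `t`, `MGood F (sn t a) m`; in this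
case let `k' t a`, `D t a` be the witnesses (`D t a = univ` otherwise).  Let
`D = ⋂ t ∈ K, (C t ∩ {d | ∀ a < d, d ∈ D t a})`, a club (`club_biInter`, `club_inter`,
`club_diag`).  Claim: `k` and `D` witness `MGood F s (m+1)`.  Let `y ∈ F ∩ Nd L s k` and suppose
`y (n+i) ∈ D` for all `i ≤ m + 1`.  Let `t = tr y n`: `Inc t` (`inc_tr`), `Near L s k t`
(`s i < y (i+1) ≤ y j` for `i < j`), so `t ∈ K`.  Let `a = y n ∈ D ⊆ C t`, above `t` (`tr_lt`).
`y ∈ Nd L (sn t a) (k' t a)` since `sn t a = tr y (n+1)` (`tr_succ`, `mem_nd`).  For `i ≤ m`,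
`y (n+1+i) ∈ D` and `a < y (n+1+i)` so `y (n+1+i) ∈ D t a`.  This contradicts the choice of
`k' t a`, `D t a`.
-/

open Set
open scoped Topology

namespace CWG

variable {Ω : Type} [LinearOrder Ω] [WellFoundedLT Ω] {L : NS Ω}

theorem good_of_succ (hO : Om Ω) (F : Set (XX L)) {n : ℕ} {s : Fin n → Ω} (hs : Inc s)
    (h : ¬ Stat {a | (∀ i, s i < a) ∧ ¬ Good F (sn s a)}) : Good F s := by
  classical
  -- step 1
  obtain ⟨m, hm⟩ : ∃ m, ¬ Stat {a | (∀ i, s i < a) ∧ ¬ MGood F (sn s a) m} := by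
    by_contra hcon
    push Not at hcon
    apply h
    intro C hC
    obtain ⟨d, hd, hdZ⟩ := L.P3 _ (fun m => bad_closed hO F hs m) hcon C hC
    refine ⟨d, ⟨(hdZ 0).1, ?_⟩, hd⟩
    rintro ⟨m, hm⟩
    exact (hdZ m).2 hm
  obtain ⟨C₀, hC₀, hC₀m⟩ := not_stat.1 hm
  -- step 2
  obtain ⟨k, hk⟩ : ∃ k, ∀ t : Fin n → Ω, Near L s k t → Inc t →
      ¬ Stat {a | (∀ i, t i < a) ∧ ¬ MGood F (sn t a) m} := by
    by_contra hcon
    push Not at hcon
    choose t ht hti htS using hcon
    obtain ⟨b, hb⟩ := ub hO (Set.countable_range s)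
    obtain ⟨d, hd, hdZ⟩ := L.P3 _ (fun k => bad_closed hO F (hti k) m) htS _
      (club_inter hO hC₀ (club_Ioi hO b))
    have hsd : ∀ i, s i < d := fun i => (hb _ (mem_range_self i)).trans hd.2
    have hg : MGood F (sn s d) m := by
      by_contra hg
      exact hC₀m d hd.1 ⟨hsd, hg⟩
    obtain ⟨k, hk⟩ := mgood_near hO hg
    exact (hdZ k).2 (hk _ (near_sn (ht k) (L.self d k) hsd))
  -- step 3
  set K : Set (Fin n → Ω) := {t | Near L s k t ∧ Inc t} with hK
  have hKc : K.Countable := by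
    have h1 : (Set.pi univ fun i : Fin n => Iic (s i)).Countable := by
      refine Set.countable_univ_pi fun i => ?_
      rw [← Iio_insert]
      exact (hO.1 (s i)).insert (s i)
    refine h1.mono ?_
    intro t ht i _
    exact L.le _ _ _ (ht.1.1 i)
  have hC : ∀ t : Fin n → Ω, ∃ C : Set Ω, Club C ∧
      (t ∈ K → ∀ a ∈ C, (∀ i, t i < a) → MGood F (sn t a) m) := by
    intro t
    by_cases ht : t ∈ K
    · obtain ⟨C, hC, hCa⟩ := not_stat.1 (hk t ht.1 ht.2)
      refine ⟨C, hC, fun _ a ha hta => ?_⟩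
      by_contra hg
      exact hCa a ha ⟨hta, hg⟩
    · exact ⟨univ, club_univ hO, fun h => absurd h ht⟩
  choose C hC hCg using hC
  have hD : ∀ (t : Fin n → Ω) (a : Ω), ∃ k', ∃ D : Set Ω, Club D ∧
      (MGood F (sn t a) m → ∀ y ∈ F, y ∈ Nd L (sn t a) k' →
        ¬ ∀ i ≤ m, y.1 (n + 1 + i) ∈ D) := by
    intro t a
    by_cases hg : MGood F (sn t a) m
    · obtain ⟨k', D, hD, hy⟩ := hg
      exact ⟨k', D, hD, fun _ => hy⟩
    · exact ⟨0, univ, club_univ hO, fun h => absurd h hg⟩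
  choose k' D hD hDy using hD
  refine ⟨m + 1, k, ⋂ t ∈ K, (C t ∩ {d | ∀ a < d, d ∈ D t a}), club_biInter hO hKc _
    (fun t _ => club_inter hO (hC t) (club_diag hO _ (hD t))), ?_⟩
  intro y hyF hyN hall
  have htK : tr y n ∈ K := by
    refine ⟨⟨fun i => (hyN i).1, fun i j hij => ?_⟩, inc_tr y n⟩
    have h1 := (hyN i).2
    have h2 : y.1 ((i : ℕ) + 1) ≤ y.1 (j : ℕ) := y.2.monotone hij
    exact h1.trans_le h2
  have hmem : ∀ i ≤ m + 1, y.1 (n + i) ∈ C (tr y n) ∧
      ∀ a < y.1 (n + i), y.1 (n + i) ∈ D (tr y n) a := fun i hi =>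
    mem_iInter₂.1 (hall i hi) _ htK
  have ha := hmem 0 (Nat.zero_le _)
  have hg := hCg (tr y n) htK (y.1 n) ha.1 (tr_lt y n)
  refine hDy (tr y n) (y.1 n) hg y hyF ?_ fun i hi => ?_
  · rw [← tr_succ]
    exact mem_nd L y (n + 1) _
  · have h1 := (hmem (i + 1) (by omega)).2 (y.1 n) (y.2 (by omega))
    have e : n + 1 + i = n + (i + 1) := by ring
    rw [e]
    exact h1

end CWG
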