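import Pool.Agent.Work.MP_8b5b22_gt.G.GoodB

/-!
# Module GoodC (M): bad nodes give common points

* `bad_step`: let `F l` (`l : ℕ`) all be not good at the increasing node `s`, `C` a club.  Then
  there is `a ∈ C` above `s` with `¬ Good (F l) (sn s a)` for all `l`.  Proof: for each `l` the
  set `Z l = {a | (∀ i, s i < a) ∧ ¬ Good (F l) (sn s a)}` is stationary (`good_of_succ`) and
  closed: it is `⋂ m, {a | (∀ i, s i < a) ∧ ¬ MGood (F l) (sn s a) m}` (`bad_closed`,
  `inter_closed`).  Apply `L.P3` (for the sets `Z l`, the club `C`); use `l = 0` for `s i < a`.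
* `common_point`: let moreover all `F l` be closed.  There is `x ∈ ⋂ l, F l` extending `s` with
  `x i ∈ C` for all `i ≥ n`.  Proof: `branch` (file Node) with the property
  `P m t := (∀ l, ¬ Good (F l) t) ∧ ∀ i : Fin m, n ≤ i.1 → t i ∈ C`.  This gives `x` with
  `P m (tr x m)` for all `m ≥ n`.  If `x ∉ F l`, `mgood_of_not_mem` gives `n₀`, and for
  `m = max n₀ n` the node `tr x m` is good for `F l`: contradiction.
* `good_of_cover`: let `F` be closed, `F ⊆ ⋃ l, G l`, all `G l` good at `s` (no closedness of `G l`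
  needed).  Then `F` is good at `s`.  Proof: let `m l`, `k l`, `D l` be the witnesses and
  `C = ⋂ l, D l` (`club_iInter`).  If `F` is not good, `common_point` for the constant sequence `F`
  gives `x ∈ F` extending `s` with `x i ∈ C` for all `i ≥ n`.  Let `x ∈ G l`; `x ∈ Nd L s (k l)`
  (`mem_nd`, `tr x n = s`) and `x (n+i) ∈ C ⊆ D l` for all `i ≤ m l`: contradiction.
* `not_good_univ`: the whole space is not good at any increasing node: extend `s` by a
  strictly increasing sequence in the club `D` (`branch` with `P m t := ∀ i : Fin m, n ≤ i.1 →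
  t i ∈ D`); the resulting `x` is in `Nd L s k` and all `x (n+i) ∈ D`.
* `good_empty`: trivial (`club_univ`).
-/

open Set
open scoped Topology

namespace CWG

variable {Ω : Type} [LinearOrder Ω] [WellFoundedLT Ω] {L : NS Ω}

theorem bad_step (hO : Om Ω) (F : ℕ → Set (XX L)) {n : ℕ} {s : Fin n → Ω} (hs : Inc s)
    (h : ∀ l, ¬ Good (F l) s) (C : Set Ω) (hC : Club C) :
    ∃ a ∈ C, (∀ i, s i < a) ∧ ∀ l, ¬ Good (F l) (sn s a) := by
  have hst : ∀ l, Stat {a | (∀ i, s i < a) ∧ ¬ Good (F l) (sn s a)} := by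
    intro l
    by_contra hcon
    exact h l (good_of_succ hO (F l) hs hcon)
  have hcl : ∀ l, Cl L.U {a | (∀ i, s i < a) ∧ ¬ Good (F l) (sn s a)} := by
    intro l
    have e : {a | (∀ i, s i < a) ∧ ¬ Good (F l) (sn s a)} =
        ⋂ m, {a | (∀ i, s i < a) ∧ ¬ MGood (F l) (sn s a) m} := by
      ext a
      rw [mem_iInter]
      constructor
      · rintro ⟨h1, h2⟩ m
        exact ⟨h1, fun h3 => h2 ⟨m, h3⟩⟩
      · intro h1
        exact ⟨(h1 0).1, fun ⟨m, hm⟩ => (h1 m).2 hm⟩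
    rw [e]
    exact inter_closed fun m => bad_closed hO (F l) hs m
  obtain ⟨a, ha, haZ⟩ := L.P3 _ hcl hst C hC
  exact ⟨a, ha, (haZ 0).1, fun l => (haZ l).2⟩

theorem common_point (hO : Om Ω) (F : ℕ → Set (XX L)) (hF : ∀ l, IsClosed (F l)) {n : ℕ}
    {s : Fin n → Ω} (hs : Inc s) (h : ∀ l, ¬ Good (F l) s) (C : Set Ω) (hC : Club C) :
    ∃ x : XX L, (∀ l, x ∈ F l) ∧ tr x n = s ∧ ∀ i, n ≤ i → x.1 i ∈ C := by
  obtain ⟨x, hx, hP⟩ := branch (L := L)
    (fun m t => (∀ l, ¬ Good (F l) t) ∧ ∀ i : Fin m, n ≤ i.1 → t i ∈ C) s hs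
    ⟨h, fun i hi => absurd i.2 (not_lt.2 hi)⟩ (by
      rintro m t ht ⟨h1, h2⟩
      obtain ⟨a, ha, hta, hbad⟩ := bad_step hO F ht h1 C hC
      refine ⟨a, hta, hbad, fun i hi => ?_⟩
      induction i using Fin.lastCases with
      | last => rw [sn_last]; exact ha
      | cast i => rw [sn_castSucc]; exact h2 i hi)
  refine ⟨x, fun l => ?_, hx, fun i hi => ?_⟩
  · by_contra hxF
    obtain ⟨n₀, hn₀⟩ := mgood_of_not_mem hO (hF l) hxF
    exact (hP (max n₀ n) (le_max_right _ _)).1 l ⟨0, hn₀ _ (le_max_left _ _)⟩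
  · exact (hP (i + 1) (by omega)).2 ⟨i, Nat.lt_succ_self i⟩ hi

theorem good_of_cover (hO : Om Ω) (F : Set (XX L)) (hF : IsClosed F) (G : ℕ → Set (XX L))
    (hG : F ⊆ ⋃ l, G l) {n : ℕ} {s : Fin n → Ω} (hs : Inc s) (h : ∀ l, Good (G l) s) :
    Good F s := by
  by_contra hbad
  choose m k D hD hy using h
  obtain ⟨x, hxF, hxs, hxC⟩ := common_point hO (fun _ => F) (fun _ => hF) hs (fun _ => hbad)
    (⋂ l, D l) (club_iInter hO D hD)
  obtain ⟨l, hl⟩ := mem_iUnion.1 (hG (hxF 0))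
  refine hy l x hl ?_ fun i _ => mem_iInter.1 (hxC _ (Nat.le_add_right n i)) l
  rw [← hxs]
  exact mem_nd L x n _

theorem not_good_univ (hO : Om Ω) {n : ℕ} {s : Fin n → Ω} (hs : Inc s) :
    ¬ Good (univ : Set (XX L)) s := by
  rintro ⟨m, k, D, hD, hy⟩
  obtain ⟨x, hx, hP⟩ := branch (L := L) (fun m t => ∀ i : Fin m, n ≤ i.1 → t i ∈ D) s hs
    (fun i hi => absurd i.2 (not_lt.2 hi)) (by
      intro m t ht h1
      obtain ⟨b, hb⟩ := ub hO (Set.countable_range t)
      obtain ⟨a, ha, hba⟩ := hD.1 b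
      refine ⟨a, fun i => (hb _ (mem_range_self i)).trans hba, fun i hi => ?_⟩
      induction i using Fin.lastCases with
      | last => rw [sn_last]; exact ha
      | cast i => rw [sn_castSucc]; exact h1 i hi)
  refine hy x trivial ?_ fun i _ =>
    hP (n + i + 1) (by omega) ⟨n + i, Nat.lt_succ_self _⟩ (Nat.le_add_right n i)
  rw [← hx]
  exact mem_nd L x n k

theorem good_empty (hO : Om Ω) {n : ℕ} (s : Fin n → Ω) : Good (∅ : Set (XX L)) s :=
  ⟨0, 0, univ, club_univ hO, fun _ hy => absurd hy (notMem_empty _)⟩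

end CWG
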