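import Pool.Agent.Work.MP_8b5b22_gt.G.Defs

/-!
# Module LadAt (M): one ladder (no clubs, only recursion)

Let `d` be nonzero with `Iio d` countable, `𝓕` a countable set of functions, `𝓐` a countable set
of subsets of `Ω`, such that for every `A ∈ 𝓐`, every finite `Φ ⊆ 𝓕` and `γ < d` there is
`ξ ∈ A`, `γ < ξ < d`, closed under all members of `Φ`; the same for `A = univ`.  Then there is a
strictly increasing cofinal sequence `e` in `d` such that every `F ∈ 𝓕` has all `e j` with `j`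
large closed under `F`, and every `A ∈ 𝓐` contains `e j` for infinitely many `j`.

Proof.  Enumerate: `a : ℕ → Set Ω` with range `insert univ 𝓐` (countable, nonempty:
`Set.Countable.exists_eq_range`), `f : ℕ → (Ω → Ω)` with range `insert id 𝓕` (`id` : every point
is closed under `id`), `g : ℕ → Ω` with range `Iio d`.  For each `j` and each `p < d` there is
`ξ ∈ a (Nat.unpair j).1`, `max p (g j) < ξ < d`, closed under `f i` for all `i ≤ j`
(hypothesis for the finite set `Φ = f '' (Iic j) \ {id}` or `(f '' Iic j) ∩ 𝓕`).  By recursion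
(e.g. on the subtype `Iio d`) define `e (j+1)` from `p = e j`, and `e 0` from `p = g 0`.  Strictly
increasing: `strictMono_nat_of_lt_succ`.  Cofinal: if `γ < d` then `γ = g j` for some `j` and
`γ < e j`.  If `F ∈ 𝓕`, `F = f i` and all `e j`, `j ≥ i`, are closed under `F`.  If `A ∈ 𝓐` then
`A = a n` and for each `i` the number `j = Nat.pair n i ≥ i` (`Nat.right_le_pair`) has
`e j ∈ a n = A`.
-/

open Set

namespace CWG

variable {Ω : Type} [LinearOrder Ω] [WellFoundedLT Ω]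

theorem ladder_at (d : Ω) (hd : ∃ γ, γ < d) (hc : (Iio d).Countable)
    (𝓕 : Set (Ω → Ω)) (h𝓕 : 𝓕.Countable) (𝓐 : Set (Set Ω)) (h𝓐 : 𝓐.Countable)
    (huniv : ∀ Φ : Set (Ω → Ω), Φ.Finite → Φ ⊆ 𝓕 → ∀ γ < d, ∃ ξ, γ < ξ ∧ ξ < d ∧
      ∀ F ∈ Φ, ClosedUnder F ξ)
    (hA : ∀ A ∈ 𝓐, ∀ Φ : Set (Ω → Ω), Φ.Finite → Φ ⊆ 𝓕 → ∀ γ < d, ∃ ξ ∈ A, γ < ξ ∧ ξ < d ∧
      ∀ F ∈ Φ, ClosedUnder F ξ) :
    ∃ e : ℕ → Ω, StrictMono e ∧ (∀ j, e j < d) ∧ (∀ γ < d, ∃ j, γ < e j) ∧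
      (∀ F ∈ 𝓕, ∃ i, ∀ j, i ≤ j → ClosedUnder F (e j)) ∧
      (∀ A ∈ 𝓐, ∀ i, ∃ j, i ≤ j ∧ e j ∈ A) := by
  classical
  obtain ⟨a, ha⟩ := (h𝓐.insert (univ : Set Ω)).exists_eq_range (insert_nonempty _ _)
  obtain ⟨f, hf⟩ := (h𝓕.insert (id : Ω → Ω)).exists_eq_range (insert_nonempty _ _)
  obtain ⟨g, hg⟩ := hc.exists_eq_range hd
  have hgd : ∀ j, g j < d := by
    intro j
    have h1 : g j ∈ Iio d := by
      rw [hg]
      exact mem_range_self j
    exact h1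
  have step : ∀ (j : ℕ) (p : Iio d), ∃ ξ : Iio d, (ξ : Ω) ∈ a j.unpair.1 ∧ p < ξ ∧ g j < ξ ∧
      ∀ i ≤ j, ClosedUnder (f i) ξ := by
    intro j p
    set Φ : Set (Ω → Ω) := {F | F ∈ 𝓕 ∧ ∃ i ≤ j, f i = F} with hΦ
    have hfin : Φ.Finite := by
      refine Set.Finite.subset ((Set.finite_Iic j).image f) ?_
      rintro F ⟨-, i, hi, rfl⟩
      exact ⟨i, hi, rfl⟩
    have hsub : Φ ⊆ 𝓕 := fun F hF => hF.1
    have hγ : max (p : Ω) (g j) < d := max_lt p.2 (hgd j)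
    have hkey : ∃ ξ ∈ a j.unpair.1, max (p : Ω) (g j) < ξ ∧ ξ < d ∧ ∀ F ∈ Φ, ClosedUnder F ξ := by
      have h1 : a j.unpair.1 ∈ insert (univ : Set Ω) 𝓐 := by
        rw [ha]
        exact mem_range_self _
      rcases h1 with h1 | h1
      · obtain ⟨ξ, h2, h3, h4⟩ := huniv Φ hfin hsub _ hγ
        exact ⟨ξ, by rw [h1]; exact mem_univ _, h2, h3, h4⟩
      · exact hA _ h1 Φ hfin hsub _ hγ
    obtain ⟨ξ, h1, h2, h3, h4⟩ := hkey
    have h2a : (p : Ω) < ξ := lt_of_le_of_lt (le_max_left _ _) h2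
    refine ⟨⟨ξ, h3⟩, h1, h2a, lt_of_le_of_lt (le_max_right _ _) h2, ?_⟩
    intro i hi
    have h5 : f i ∈ insert (id : Ω → Ω) 𝓕 := by
      rw [hf]
      exact mem_range_self _
    rcases h5 with h5 | h5
    · rw [h5]
      intro ζ hζ
      exact hζ
    · exact h4 _ ⟨h5, i, hi, rfl⟩
  choose N hN1 hN2 hN3 hN4 using step
  let E : ℕ → Iio d := fun n => Nat.rec (N 0 ⟨g 0, hgd 0⟩) (fun k x => N (k + 1) x) n
  have hE : ∀ j, ∃ p, E j = N j p := by
    intro j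
    cases j with
    | zero => exact ⟨_, rfl⟩
    | succ k => exact ⟨E k, rfl⟩
  refine ⟨fun j => (E j).1, ?_, fun j => (E j).2, ?_, ?_, ?_⟩
  · apply strictMono_nat_of_lt_succ
    intro n
    exact hN2 (n + 1) (E n)
  · intro γ hγ
    have h1 : γ ∈ Iio d := hγ
    rw [hg] at h1
    obtain ⟨j, rfl⟩ := h1
    obtain ⟨p, hp⟩ := hE j
    refine ⟨j, ?_⟩
    show g j < (E j).1
    rw [hp]
    exact hN3 j p
  · intro F hF
    have h1 : F ∈ insert (id : Ω → Ω) 𝓕 := mem_insert_of_mem _ hF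
    rw [hf] at h1
    obtain ⟨i, rfl⟩ := h1
    refine ⟨i, fun j hj => ?_⟩
    obtain ⟨p, hp⟩ := hE j
    show ClosedUnder (f i) (E j).1
    rw [hp]
    exact hN4 j p i hj
  · intro A hA' i
    have h1 : A ∈ insert (univ : Set Ω) 𝓐 := mem_insert_of_mem _ hA'
    rw [ha] at h1
    obtain ⟨n, rfl⟩ := h1
    refine ⟨Nat.pair n i, Nat.right_le_pair n i, ?_⟩
    obtain ⟨p, hp⟩ := hE (Nat.pair n i)
    show (E (Nat.pair n i)).1 ∈ a n
    rw [hp]
    have h2 := hN1 (Nat.pair n i) p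
    rwa [Nat.unpair_pair] at h2

end CWG
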