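import Pool.Agent.Work.MP_8b5b22_gt.G.ClubA
import Pool.Agent.Work.MP_8b5b22_gt.G.LadAt

/-!
# Module Ladder (M): the guessing principle gives ladders

Let `M` be as in `Sharp`.  Call a set `A` big at `d` if for all finite `Φ ⊆ M d` all of whose
members have `d` closed, and all `γ < d`, there is `ξ ∈ A`, `γ < ξ < d`, closed under all members
of `Φ`.  Let `S :=` the set of nonzero `d` such that `univ` is big at `d`.  Choose for each `z` an
element `u z > z` (`gt`), and code a set `A` by the function `χ A z := if z ∈ A then z else u z`;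
decode a function `F` as the set `dec F := {z | F z = z}`; so `dec (χ A) = A`, and if `F`
agrees with `χ A` below `d` then `dec F ∩ Iio d = A ∩ Iio d`.  Let `ι : ℕ → Ω` be injective
(`Ω` is infinite, as it is not countable: `Infinite.natEmbedding`) with a left inverse
`κ : Ω → ℕ` (`Function.invFun`).

For `d ∈ S` apply `ladder_at` with `𝓕 = {F ∈ M d | ClosedUnder F d}`, `𝓐 = {dec F | F ∈ M d and
dec F is big at d}`; this gives `η d` (`η d` arbitrary, e.g. constant, for `d ∉ S`).  Enumerate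
`insert id (M d) = range (f d)` with `f d : ℕ → (Ω → Ω)` and put
`m d j := sup of κ (f d i (η d j)) over i ≤ j` (`Finset.sup (Finset.range (j+1))`).

* `mono, lt, cof`: `ladder_at`.
* `guess`: let `C` be a club, `F z :=` a member of `C` above `z`; `Sharp` (first part) gives a club
  `D₁` with `F' ∈ M d` agreeing with `F` below `d` for each `d ∈ D₁`; `D = D₁ ∩ {d | ClosedUnder F
  d}` (`club_inter`, `club_closed`).  If `d ∈ D ∩ S` then `F' ∈ M d` and `ClosedUnder F' d`, so all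
  `η d j` with `j ≥ i` are closed under `F'`, hence under `F` (as `η d j < d`), and for `j ≥ i + 1`
  `η d j` is nonzero (`η d 0 < η d j`), so `η d j` is a limit of `C`: `b < F b < η d j`.
* `dom`: for `g : Ω → ℕ` let `F = ι ∘ g` and `D` the club where `F` is guessed: for `d ∈ D ∩ S`,
  `F' = f d i` agrees with `ι ∘ g` below `d`, and for `j ≥ i`,
  `g (η d j) = κ (F' (η d j)) ≤ m d j`.
* `hit`: let `A n` be stationary.  Let `E n` be a club at which `χ (A n)` is guessed and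
  `E = ⋂ n, E n`, a club; the sets `A n ∩ E` are stationary (intersect with one more club,
  `club_inter`).  Apply the second part of `Sharp` to them: `d`.  Taking `Φ = ∅` (and `n = 0`),
  `d` is a limit of `E`, so `d ∈ E`; `d ∈ S` since `A 0 ∩ E ⊆ univ`.  For each `n` there is
  `F' ∈ M d` agreeing with `χ (A n)` below `d`; `dec F' ∩ Iio d = A n ∩ Iio d` is big at `d`, so
  `dec F' ∈ 𝓐` and it contains `η d j` for arbitrarily large `j`, and `η d j < d` so
  `η d j ∈ A n`.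
-/

open Set

namespace CWG

variable {Ω : Type} [LinearOrder Ω] [WellFoundedLT Ω]

omit [WellFoundedLT Ω] in
private theorem infinite_of_om (hO : Om Ω) : Infinite Ω := by
  by_contra hcon
  have hfin : Finite Ω := not_infinite_iff_finite.1 hcon
  exact hO.2 (Set.toFinite _).countable

theorem lad_of_sharp (hO : Om Ω) (h : Sharp Ω) : Nonempty (Lad Ω) := by
  classical
  obtain ⟨M, hM, hguess, hhit⟩ := h
  choose u hu using gt hO
  have hinf := infinite_of_om hO
  set ι := Infinite.natEmbedding Ω with hι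
  have hne : Nonempty ℕ := ⟨0⟩
  set κ : Ω → ℕ := Function.invFun ι with hκdef
  have hκ : ∀ n, κ (ι n) = n := Function.leftInverse_invFun ι.injective
  let Big : Set Ω → Ω → Prop := fun A d => ∀ Φ : Set (Ω → Ω), Φ.Finite → Φ ⊆ M d →
    (∀ F ∈ Φ, ClosedUnder F d) → ∀ γ < d, ∃ ξ ∈ A, γ < ξ ∧ ξ < d ∧ ∀ F ∈ Φ, ClosedUnder F ξ
  let S : Set Ω := {d | (∃ γ, γ < d) ∧ Big univ d}
  let dec : (Ω → Ω) → Set Ω := fun F => {z | F z = z}
  have hlad : ∀ d, ∃ e : ℕ → Ω, d ∈ S → (StrictMono e ∧ (∀ j, e j < d) ∧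
      (∀ γ < d, ∃ j, γ < e j) ∧
      (∀ F ∈ M d, ClosedUnder F d → ∃ i, ∀ j, i ≤ j → ClosedUnder F (e j)) ∧
      (∀ F ∈ M d, Big (dec F) d → ∀ i, ∃ j, i ≤ j ∧ e j ∈ dec F)) := by
    intro d
    by_cases hd : d ∈ S
    · obtain ⟨e, h1, h2, h3, h4, h5⟩ := ladder_at d hd.1 (hO.1 d)
        {F | F ∈ M d ∧ ClosedUnder F d} ((hM d).mono fun F hF => hF.1)
        {A | ∃ F ∈ M d, dec F = A ∧ Big (dec F) d}
        (((hM d).image dec).mono (by
          rintro A ⟨F, hF, rfl, -⟩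
          exact mem_image_of_mem dec hF))
        (by
          intro Φ hΦ hsub γ hγ
          obtain ⟨ξ, -, h⟩ := hd.2 Φ hΦ (fun F hF => (hsub hF).1) (fun F hF => (hsub hF).2) γ hγ
          exact ⟨ξ, h⟩)
        (by
          rintro A ⟨F, hF, rfl, hB⟩ Φ hΦ hsub γ hγ
          exact hB Φ hΦ (fun F hF => (hsub hF).1) (fun F hF => (hsub hF).2) γ hγ)
      exact ⟨e, fun _ => ⟨h1, h2, h3, fun F hF hc => h4 F ⟨hF, hc⟩,
        fun F hF hB => h5 (dec F) ⟨F, hF, rfl, hB⟩⟩⟩
    · exact ⟨fun _ => d, fun h => absurd h hd⟩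
  choose η hη using hlad
  have henum : ∀ d, ∃ f : ℕ → (Ω → Ω), insert id (M d) = range f := fun d =>
    ((hM d).insert id).exists_eq_range (insert_nonempty _ _)
  choose f hf using henum
  have hfM : ∀ d, ∀ F ∈ M d, ∃ i, f d i = F := by
    intro d F hF
    have h1 : F ∈ insert id (M d) := mem_insert_of_mem _ hF
    rw [hf d] at h1
    exact h1
  refine ⟨{
    S := S
    η := η
    m := fun d j => (Finset.range (j + 1)).sup fun i => κ (f d i (η d j))
    mono := fun d hd => (hη d hd).1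
    lt := fun d hd => (hη d hd).2.1
    cof := fun d hd => (hη d hd).2.2.1
    guess := ?_
    dom := ?_
    hit := ?_ }⟩
  · intro C hC
    choose F hFC hF using hC.1
    obtain ⟨D₁, hD₁, hD₁'⟩ := hguess F
    refine ⟨D₁ ∩ {d | ClosedUnder F d}, club_inter hO hD₁ (club_closed hO F), ?_⟩
    rintro d ⟨⟨hdD, hdc⟩, hdS⟩
    obtain ⟨F', hF', hag⟩ := hD₁' d hdD
    obtain ⟨hmono, hlt, -, hcl, -⟩ := hη d hdS
    have hF'c : ClosedUnder F' d := by
      intro ζ hζ
      rw [hag ζ hζ]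
      exact hdc ζ hζ
    obtain ⟨i, hi⟩ := hcl F' hF' hF'c
    refine ⟨i + 1, fun j hj => ?_⟩
    refine hC.2 _ ⟨η d 0, hmono (by omega)⟩ ?_
    intro b hb
    refine ⟨F b, hFC b, hF b, ?_⟩
    have h1 := hi j (by omega) b hb
    rwa [hag b (hb.trans (hlt j))] at h1
  · intro g
    obtain ⟨D, hD, hD'⟩ := hguess (fun z => ι (g z))
    refine ⟨D, hD, ?_⟩
    rintro d ⟨hdD, hdS⟩
    obtain ⟨F', hF', hag⟩ := hD' d hdD
    obtain ⟨i, hi⟩ := hfM d F' hF'
    refine ⟨i, fun j hj => ?_⟩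
    have h1 : g (η d j) = κ (f d i (η d j)) := by
      rw [hi, hag _ ((hη d hdS).2.1 j), hκ]
    rw [h1]
    exact Finset.le_sup (f := fun i => κ (f d i (η d j))) (Finset.mem_range.2 (by omega))
  · intro A hA
    let χ : ℕ → Ω → Ω := fun n z => if z ∈ A n then z else u z
    have h1 : ∀ n, ∃ C : Set Ω, Club C ∧ ∀ δ ∈ C, ∃ F' ∈ M δ, ∀ ζ < δ, F' ζ = χ n ζ :=
      fun n => hguess (χ n)
    choose E hE hE' using h1
    have hEE : Club (⋂ n, E n) := club_iInter hO E hE
    obtain ⟨d, hd0, hd⟩ := hhit (fun n => A n ∩ ⋂ n, E n) (fun n C hC => by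
      obtain ⟨x, hx1, hx2, hx3⟩ := hA n (C ∩ ⋂ n, E n) (club_inter hO hC hEE)
      exact ⟨x, ⟨hx1, hx3⟩, hx2⟩)
    have hdE : ∀ n, d ∈ E n := by
      intro n
      refine (hE n).2 d hd0 ?_
      intro b hb
      obtain ⟨ξ, hξ, h2, h3, -⟩ := hd 0 ∅ finite_empty (empty_subset _) (by simp) b hb
      exact ⟨ξ, mem_iInter.1 hξ.2 n, h2, h3⟩
    have hdS : d ∈ S := by
      refine ⟨hd0, ?_⟩
      intro Φ hΦ hsub hc γ hγ
      obtain ⟨ξ, -, h2⟩ := hd 0 Φ hΦ hsub hc γ hγ
      exact ⟨ξ, mem_univ _, h2⟩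
    refine ⟨d, hdS, ?_⟩
    intro n i
    obtain ⟨F', hF', hag⟩ := hE' n d (hdE n)
    have hB : Big (dec F') d := by
      intro Φ hΦ hsub hc γ hγ
      obtain ⟨ξ, hξ, h2, h3, h4⟩ := hd n Φ hΦ hsub hc γ hγ
      refine ⟨ξ, ?_, h2, h3, h4⟩
      show F' ξ = ξ
      rw [hag ξ h3]
      exact if_pos hξ.1
    obtain ⟨j, hj, hj'⟩ := (hη d hdS).2.2.2.2 F' hF' hB i
    refine ⟨j, hj, ?_⟩
    have h2 : F' (η d j) = η d j := hj'
    rw [hag _ ((hη d hdS).2.1 j)] at h2
    by_contra hcon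
    have h3 : χ n (η d j) = u (η d j) := if_neg hcon
    rw [h3] at h2
    have h4 := hu (η d j)
    rw [h2] at h4
    exact lt_irrefl _ h4

end CWG
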