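import Pool.Agent.Work.MP_8b5b22_gt.G.NSa

/-!
# Module NSb (M): properties `P1` and `P3` of the neighbourhood system

* `inU_P1`: let `C` be a club.  Claim: for every `v` there is a club `D v` such that every
  `d ∈ D v` with `r d = v` has a neighbourhood `InU d k ⊆ C`.  Well founded induction on `v`
  (choose, or prove `∃ D` for each `v` by `WellFoundedLT.induction`, using choice for `w < v`):
  let `E = C ∩ ⋂ w < v, D w`, a club (`club_biInter`, `Iio v` countable by `hO.1 v`, and
  `club_inter`).  Let `g x :=` the least (or some) `l` with `∀ z, InU x l z → z ∈ C` if there is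
  one, and `0` otherwise.  `L.guess E` gives a club `D'` with `η d j ∈ E` for `d ∈ D' ∩ S` and
  large `j`; `L.dom g` a club `D''` with `g (η d j) ≤ m d j` for large `j`.  `D v = C ∩ D' ∩ D''`.
  If `d ∈ D v`, `r d = v`: if `v = o` every neighbourhood of `d` is `{d}`; otherwise `d ∈ S`
  (`R.lt`), let `k` be beyond both bounds.  For `z` with `InU d k z`: `z = d ∈ C` or it is a step
  with `j ≥ k`, `w := r (η d j) < v`, `η d j ∈ D w` so the set of `l` as above is nonempty for
  `x = η d j` and `g x` is such an `l`; `InU (η d j) (m d j) z` gives `InU (η d j) (g (η d j)) z`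
  by `inU_anti`; so `z ∈ C`.
  (In fact no case distinction `v = o` is needed if one treats `d ∉ S`.)
  Finally `D = C ∩ {d | ∀ v < d, d ∈ D v}` (`club_diag`): let `d ∈ D`, `v = r d`.  If `v ≠ o` then
  `v < d` (`R.lt`), so `d ∈ D v`.  If `v = o` the `0`-th neighbourhood of `d` is `{d} ⊆ C`
  (a step needs `r (η d j) < o`, impossible by `R.least`).
* `inU_P3`: let `F n` be closed and stationary, `C` a club.  `F n ∩ Ioi o` is stationary
  and `r d < d` there (`r d = o < d` or `R.lt`); by `fodor` there is `v n` with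
  `{d ∈ F n | r d = v n}` stationary; let `A n` be its intersection with `C`.  Let `b` be a strict
  upper bound of the `v n` (`ub`).  `R.hit A` and `b` give `d` with `b < r d` and `η d j ∈ A n`
  for arbitrarily large `j`.  `r d ≠ o` so `d ∈ S`.  For each `n, k` there is `j ≥ k` with
  `η d j ∈ A n`; `r (η d j) = v n < b < r d` so `InU d k (η d j)` (step with `self`; `L.mono`).
  So `d ∈ F n` since `F n` is closed.  Also `d ∈ C`: it is nonzero (`b < r d < d`) and for
  `c < d` there is `i` with `c < η d i` (`L.cof`), and `j ≥ i` with `η d j ∈ A 0 ⊆ C`, and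
  `c < η d i ≤ η d j < d`.
-/

open Set

namespace CWG

variable {Ω : Type} [LinearOrder Ω] [WellFoundedLT Ω]

variable {L : Lad Ω} {R : Rk L}

private theorem nsb_mem {d : Ω} {j : ℕ} (h : R.r (L.η d j) < R.r d) : d ∈ L.S := by
  have h1 : R.r d ≠ R.o := by
    intro h2
    rw [h2] at h
    exact absurd (R.least _) (not_le.2 h)
  exact (R.lt d h1).1

private theorem nsb_rank (hO : Om Ω) (L : Lad Ω) (R : Rk L) (C : Set Ω) (hC : Club C) (v : Ω) :
    ∃ D : Set Ω, Club D ∧ ∀ d ∈ D, R.r d = v → ∃ k, ∀ z, InU L R d k z → z ∈ C := by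
  classical
  induction v using WellFoundedLT.induction with
  | ind v ih =>
    choose D hD1 hD2 using ih
    let D' : Ω → Set Ω := fun w => if h : w < v then D w h else univ
    have hD' : ∀ w ∈ Iio v, Club (D' w) := by
      intro w hw
      have hw' : w < v := hw
      simp only [D', dif_pos hw']
      exact hD1 w hw'
    have hE : Club (C ∩ ⋂ w ∈ Iio v, D' w) :=
      club_inter hO hC (club_biInter hO (hO.1 v) D' hD')
    let g : Ω → ℕ := fun x => if h : ∃ l, ∀ z, InU L R x l z → z ∈ C then h.choose else 0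
    have hg : ∀ x, (∃ l, ∀ z, InU L R x l z → z ∈ C) → ∀ z, InU L R x (g x) z → z ∈ C := by
      intro x hx
      simp only [g, dif_pos hx]
      exact hx.choose_spec
    obtain ⟨D₁, hD₁, h₁⟩ := L.guess _ hE
    obtain ⟨D₂, hD₂, h₂⟩ := L.dom g
    refine ⟨C ∩ (D₁ ∩ D₂), club_inter hO hC (club_inter hO hD₁ hD₂), ?_⟩
    intro d hd hv
    by_cases hS : d ∈ L.S
    · obtain ⟨j₁, hj₁⟩ := h₁ d ⟨hd.2.1, hS⟩
      obtain ⟨j₂, hj₂⟩ := h₂ d ⟨hd.2.2, hS⟩
      refine ⟨max j₁ j₂, fun z hz => ?_⟩
      cases hz with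
      | self => exact hd.1
      | step _ _ j _ hk hr h' hj =>
        have hlt : R.r (L.η d j) < v := hv ▸ hr
        have hE' := hj₁ j ((le_max_left _ _).trans hk)
        have hx : L.η d j ∈ D' (R.r (L.η d j)) := by
          have := hE'.2
          rw [mem_iInter₂] at this
          exact this _ hlt
        simp only [D', dif_pos hlt] at hx
        have hex := hD2 _ hlt _ hx rfl
        exact hg _ hex z (inU_anti (hj₂ j ((le_max_right _ _).trans hk)) h')
    · refine ⟨0, fun z hz => ?_⟩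
      cases hz with
      | self => exact hd.1
      | step _ _ j _ hk hr h' hj => exact absurd (nsb_mem hr) hS

theorem inU_P1 (hO : Om Ω) (L : Lad Ω) (R : Rk L) (C : Set Ω) (hC : Club C) :
    ∃ D : Set Ω, Club D ∧ ∀ d ∈ D, ∃ k, ∀ z, InU L R d k z → z ∈ C := by
  choose D hD1 hD2 using nsb_rank hO L R C hC
  refine ⟨C ∩ {d | ∀ v < d, d ∈ D v}, club_inter hO hC (club_diag hO D hD1), ?_⟩
  intro d hd
  by_cases hv : R.r d = R.o
  · refine ⟨0, fun z hz => ?_⟩
    cases hz with
    | self => exact hd.1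
    | step _ _ j _ hk hr h' hj =>
      rw [hv] at hr
      exact absurd (R.least _) (not_le.2 hr)
  · exact hD2 _ d (hd.2 _ (R.lt d hv).2) rfl

theorem inU_P3 (hO : Om Ω) (L : Lad Ω) (R : Rk L) (F : ℕ → Set Ω)
    (hcl : ∀ n, ∀ d, (∀ k, ∃ z ∈ F n, InU L R d k z) → d ∈ F n)
    (hF : ∀ n, Stat (F n)) (C : Set Ω) (hC : Club C) : ∃ d ∈ C, ∀ n, d ∈ F n := by
  have h1 : ∀ n, ∃ v, Stat {d | d ∈ F n ∩ Ioi R.o ∧ R.r d = v} := by
    intro n
    refine fodor hO (stat_inter_club hO (hF n) (club_Ioi hO R.o)) R.r ?_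
    intro d hd
    by_cases hv : R.r d = R.o
    · rw [hv]
      exact hd.2
    · exact (R.lt d hv).2
  choose v hv using h1
  obtain ⟨b, hb⟩ := ub hO (countable_range v)
  obtain ⟨d, hbd, hit⟩ := R.hit (fun n => {d | d ∈ F n ∩ Ioi R.o ∧ R.r d = v n} ∩ C)
    (fun n => stat_inter_club hO (hv n) hC) b
  have hdo : R.r d ≠ R.o := by
    intro h
    rw [h] at hbd
    exact absurd (R.least b) (not_le.2 hbd)
  obtain ⟨hS, hlt⟩ := R.lt d hdo
  refine ⟨d, ?_, fun n => ?_⟩
  · refine hC.2 d ⟨b, hbd.trans hlt⟩ (fun c hc => ?_)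
    obtain ⟨i, hi⟩ := L.cof d hS c hc
    obtain ⟨j, hij, hj⟩ := hit 0 i
    exact ⟨L.η d j, hj.2, lt_of_lt_of_le hi ((L.mono d hS).monotone hij), L.lt d hS j⟩
  · refine hcl n d (fun k => ?_)
    obtain ⟨j, hkj, hj⟩ := hit n k
    refine ⟨L.η d j, hj.1.1.1, InU.step d k j _ hkj ?_ (InU.self _ _) (fun i hi => L.mono d hS hi)⟩
    have e : R.r (L.η d j) = v n := hj.1.2
    rw [e]
    exact (hb _ (mem_range_self n)).trans hbd

end CWG
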