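import Pool.Agent.Work.MP_8b5b22_gt.G.Ladder
import Pool.Agent.Work.MP_8b5b22_gt.G.NSb

/-!
# The neighbourhood system from the guessing principle (assembly)
-/

open Set

namespace CWG

variable {Ω : Type} [LinearOrder Ω] [WellFoundedLT Ω]

theorem ns_of_sharp (hO : Om Ω) (h : Sharp Ω) : Nonempty (NS Ω) := by
  obtain ⟨L⟩ := lad_of_sharp hO h
  obtain ⟨R⟩ := exists_rank hO L
  refine ⟨{ U := fun d k => {z | InU L R d k z}
            self := fun d k => InU.self d k
            le := fun d k z hz => inU_le hz
            anti := fun d k l hkl z hz => inU_anti hkl hz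
            low := fun d a h => inU_low h
            opn := fun d k z hz => inU_opn d k z hz
            cls := ?_
            P1 := fun C hC => inU_P1 hO L R C hC
            P3 := ?_ }⟩
  · intro d k z hz
    obtain ⟨l, hl⟩ := inU_cls d k z hz
    exact ⟨l, Set.disjoint_left.2 hl⟩
  · intro F hcl hF C hC
    exact inU_P3 hO L R F (fun n d hd => hcl n d (fun k => by
      obtain ⟨z, hz, hz'⟩ := hd k
      exact ⟨z, hz, hz'⟩)) hF C hC

end CWG
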