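import Pool.Agent.Work.MP_8b5b22_gt.G.Rank

/-!
# Module NSa (M): the neighbourhood system of a ranked ladder, elementary properties

`InU L R d k z` : `z` is in the `k`-th neighbourhood of `d`.  It is generated by
`z = d` and by: `k ≤ j`, `r (η d j) < r d`, `z` in the `m d j`-th neighbourhood of `η d j`, and
`η d i < z` for all `i < j`.  (So `r d ≠ o`, hence `d ∈ L.S`, if there is a second kind of point:
`r (η d j) ≥ o`.)

* `inU_le`: induction on the derivation; `z ≤ η d j < d` (`L.lt`, `R.lt`).
* `inU_anti`: cases.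
* `inU_low`: if `r d = o` the neighbourhood is `{d}`; otherwise `d ∈ L.S`, take `i` with
  `a < η d i` (`L.cof`) and `k = i + 1`: a point of the second kind has `j ≥ i + 1`, so
  `a < η d i < z`.
* `inU_opn`: well founded induction on `d` (`WellFoundedLT.induction`) for all `k, z`.  If `z = d`
  take `l = k`.  Otherwise `z` is in the neighbourhood `m d j` of `η d j < d`; the induction
  hypothesis gives `l₁`; if `j > 0` then `η d (j-1) < z` and `inU_low` gives `l₂` such that the
  `l₂`-th neighbourhood of `z` is above `η d (j-1)`, so above all `η d i`, `i < j`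
  (`L.mono`).  Take `max l₁ l₂`.
* `inU_cls`: well founded induction on `d` for all `k, z`.  If `z > d`: `inU_low` with `a = d` and
  `inU_le`.  `z = d` is impossible.  Let `z < d`.  If `r d = o`, the neighbourhood of `d` is `{d}`
  and the neighbourhoods of `z` are below `z`.  Otherwise `d ∈ L.S`; let `j` be least with
  `z ≤ η d j` (`Nat.find`, exists by `L.cof`), so `η d i < z` for `i < j`; let `l₁` be such that
  the `l₁`-th neighbourhood of `z` is above `η d (j-1)` if `j > 0` (`inU_low`).  Suppose
  `w` is in the `l₁`-th neighbourhood of `z` and in the `k`-th of `d`.  `w ≤ z < d` so it is of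
  the second kind with some `j'`: if `j' < j` then `w ≤ η d j' ≤ η d (j-1) < w`; if `j' > j` then
  `η d j < w ≤ z ≤ η d j`.  So `j' = j`; then `k ≤ j`, `r (η d j) < r d`, and `z` is not in the
  `m d j`-th neighbourhood of `η d j` (otherwise `z` would be in the `k`-th of `d`), so by
  induction hypothesis for `η d j < d` there is `l₂` such that the `l₂`-th neighbourhood of `z` is
  disjoint from it.  In all cases `l = max l₁ l₂` works.
-/

open Set

namespace CWG

variable {Ω : Type} [LinearOrder Ω] [WellFoundedLT Ω]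

/-- the `k`-th neighbourhood of `d` -/
inductive InU (L : Lad Ω) (R : Rk L) : Ω → ℕ → Ω → Prop
  | self (d : Ω) (k : ℕ) : InU L R d k d
  | step (d : Ω) (k j : ℕ) (z : Ω) : k ≤ j → R.r (L.η d j) < R.r d →
      InU L R (L.η d j) (L.m d j) z → (∀ i < j, L.η d i < z) → InU L R d k z

variable {L : Lad Ω} {R : Rk L}

private theorem inU_mem {d : Ω} {j : ℕ} (h : R.r (L.η d j) < R.r d) : d ∈ L.S := by
  have h1 : R.r d ≠ R.o := by
    intro h2
    rw [h2] at h
    exact absurd (R.least _) (not_le.2 h)
  exact (R.lt d h1).1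

theorem inU_le {d z : Ω} {k : ℕ} (h : InU L R d k z) : z ≤ d := by
  induction h with
  | self d k => exact le_rfl
  | step d k j z hk hr _ hi ih =>
    exact ih.trans (L.lt d (inU_mem hr) j).le

theorem inU_anti {d z : Ω} {k l : ℕ} (hkl : k ≤ l) (h : InU L R d l z) : InU L R d k z := by
  cases h with
  | self => exact InU.self _ _
  | step _ _ j _ hk hr h hi => exact InU.step _ _ j _ (hkl.trans hk) hr h hi

theorem inU_low {d a : Ω} (h : a < d) : ∃ k, ∀ z, InU L R d k z → a < z := by
  by_cases hd : d ∈ L.S
  · obtain ⟨i, hi⟩ := L.cof d hd a h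
    refine ⟨i + 1, fun z hz => ?_⟩
    cases hz with
    | self => exact h
    | step _ _ j _ hk hr h' hj => exact hi.trans (hj i (by omega))
  · refine ⟨0, fun z hz => ?_⟩
    cases hz with
    | self => exact h
    | step _ _ j _ hk hr h' hj => exact absurd (inU_mem hr) hd

private theorem inU_low' (d z : Ω) (j : ℕ) (hd : d ∈ L.S) (hj : ∀ i < j, L.η d i < z) :
    ∃ l, ∀ w, InU L R z l w → ∀ i < j, L.η d i < w := by
  rcases Nat.eq_zero_or_pos j with h0 | h0
  · refine ⟨0, fun w _ i hi => ?_⟩
    omega
  · obtain ⟨l, hl⟩ := inU_low (L := L) (R := R) (hj (j - 1) (by omega))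
    refine ⟨l, fun w hw i hi => lt_of_le_of_lt ?_ (hl w hw)⟩
    exact (L.mono d hd).monotone (by omega)

theorem inU_opn (d : Ω) (k : ℕ) (z : Ω) (h : InU L R d k z) :
    ∃ l, ∀ w, InU L R z l w → InU L R d k w := by
  induction h with
  | self d k => exact ⟨k, fun w hw => hw⟩
  | step d k j z hk hr _ hi ih =>
    obtain ⟨l₁, h₁⟩ := ih
    obtain ⟨l₂, h₂⟩ := inU_low' (L := L) (R := R) d z j (inU_mem hr) hi
    refine ⟨max l₁ l₂, fun w hw => ?_⟩
    exact InU.step d k j w hk hr (h₁ w (inU_anti (le_max_left _ _) hw))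
      (h₂ w (inU_anti (le_max_right _ _) hw))

theorem inU_cls (d : Ω) (k : ℕ) (z : Ω) (h : ¬ InU L R d k z) :
    ∃ l, ∀ w, InU L R z l w → ¬ InU L R d k w := by
  induction d using WellFoundedLT.induction generalizing k z with
  | ind d ih =>
    rcases lt_trichotomy z d with hzd | hzd | hzd
    · by_cases hd : d ∈ L.S
      · classical
        have hex : ∃ j, z ≤ L.η d j := by
          obtain ⟨j, hj⟩ := L.cof d hd z hzd
          exact ⟨j, hj.le⟩
        set j := Nat.find hex with hjdef
        have hj : z ≤ L.η d j := Nat.find_spec hex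
        have hmin : ∀ i < j, L.η d i < z := fun i hi => not_le.1 (Nat.find_min hex hi)
        obtain ⟨l₁, h₁⟩ := inU_low' (L := L) (R := R) d z j hd hmin
        have hl2 : ∃ l₂, ∀ w, InU L R z l₂ w → k ≤ j → R.r (L.η d j) < R.r d →
            ¬ InU L R (L.η d j) (L.m d j) w := by
          by_cases hc : k ≤ j ∧ R.r (L.η d j) < R.r d
          · have hnot : ¬ InU L R (L.η d j) (L.m d j) z := fun h' =>
              h (InU.step d k j z hc.1 hc.2 h' hmin)
            obtain ⟨l₂, h₂⟩ := ih (L.η d j) (L.lt d hd j) (L.m d j) z hnot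
            exact ⟨l₂, fun w hw _ _ => h₂ w hw⟩
          · exact ⟨0, fun w _ h1 h2 => absurd ⟨h1, h2⟩ hc⟩
        obtain ⟨l₂, h₂⟩ := hl2
        refine ⟨max l₁ l₂, fun w hw hw' => ?_⟩
        have hwz : w ≤ z := inU_le hw
        cases hw' with
        | self => exact absurd hwz (not_le.2 hzd)
        | step _ _ j' _ hk hr h' hj' =>
          rcases lt_trichotomy j' j with hlt | heq | hgt
          · have e1 : w ≤ L.η d j' := inU_le h'
            have e2 : L.η d j' < w := h₁ w (inU_anti (le_max_left _ _) hw) j' hlt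
            exact absurd e1 (not_le.2 e2)
          · subst heq
            exact h₂ w (inU_anti (le_max_right _ _) hw) hk hr h'
          · have e1 : L.η d j < w := hj' j hgt
            exact absurd (hwz.trans hj) (not_le.2 e1)
      · refine ⟨0, fun w hw hw' => ?_⟩
        have hwz : w ≤ z := inU_le hw
        cases hw' with
        | self => exact absurd hwz (not_le.2 hzd)
        | step _ _ j' _ hk hr h' hj' => exact hd (inU_mem hr)
    · subst hzd
      exact absurd (InU.self _ _) h
    · obtain ⟨l, hl⟩ := inU_low (L := L) (R := R) hzd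
      exact ⟨l, fun w hw hw' => absurd (inU_le hw') (not_le.2 (hl w hw))⟩

end CWG
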