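import Pool.Agent.Work.MP_8b5b22_gt.G.Defs

/-!
# Nodes (fixed file, proved): appending a value, prefixes, truncations
-/

open Set

namespace CWG

variable {Ω : Type}

/-- append a value -/
def sn {n : ℕ} (s : Fin n → Ω) (a : Ω) : Fin (n + 1) → Ω := Fin.snoc (α := fun _ => Ω) s a

theorem sn_last {n : ℕ} (s : Fin n → Ω) (a : Ω) : sn s a (Fin.last n) = a := by
  simp [sn]

theorem sn_castSucc {n : ℕ} (s : Fin n → Ω) (a : Ω) (i : Fin n) : sn s a i.castSucc = s i := by
  simp [sn]

theorem sn_of_lt {n : ℕ} (s : Fin n → Ω) (a : Ω) (i : ℕ) (h : i < n) :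
    sn s a ⟨i, h.trans (Nat.lt_succ_self n)⟩ = s ⟨i, h⟩ :=
  sn_castSucc s a ⟨i, h⟩

theorem sn_of_eq {n : ℕ} (s : Fin n → Ω) (a : Ω) : sn s a ⟨n, Nat.lt_succ_self n⟩ = a :=
  sn_last s a

/-- prefix of `s` of length `i` -/
def pre {n : ℕ} (s : Fin n → Ω) (i : Fin n) : Fin i.1 → Ω := fun j => s ⟨j.1, j.2.trans i.2⟩

variable [LinearOrder Ω]

theorem inc_sn {n : ℕ} {s : Fin n → Ω} {a : Ω} : Inc (sn s a) ↔ Inc s ∧ ∀ i, s i < a := by
  constructor
  · intro h
    refine ⟨fun i j hij => ?_, fun i => ?_⟩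
    · have := h i.castSucc j.castSucc (by simpa using hij)
      rwa [sn_castSucc, sn_castSucc] at this
    · have := h i.castSucc (Fin.last n) (Fin.castSucc_lt_last i)
      rwa [sn_castSucc, sn_last] at this
  · rintro ⟨h1, h2⟩ i j hij
    induction i using Fin.lastCases with
    | last => exact absurd hij (not_lt.2 (Fin.le_last j))
    | cast i =>
      induction j using Fin.lastCases with
      | last => rw [sn_castSucc, sn_last]; exact h2 i
      | cast j => rw [sn_castSucc, sn_castSucc]; exact h1 i j (by simpa using hij)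

theorem inc_pre {n : ℕ} {s : Fin n → Ω} (h : Inc s) (i : Fin n) : Inc (pre s i) :=
  fun a b hab => h _ _ (by simpa using hab)

variable {L : NS Ω}

theorem tr_succ (x : XX L) (n : ℕ) : tr x (n + 1) = sn (tr x n) (x.1 n) := by
  funext i
  induction i using Fin.lastCases with
  | last => rw [sn_last]; simp [tr]
  | cast i => rw [sn_castSucc]; simp [tr]

theorem inc_tr (x : XX L) (n : ℕ) : Inc (tr x n) := fun i j hij => x.2 (by simpa using hij)

theorem tr_lt (x : XX L) (n : ℕ) (i : Fin n) : tr x n i < x.1 n := x.2 i.2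

theorem pre_tr (x : XX L) (n : ℕ) (i : Fin n) : pre (tr x n) i = tr x i.1 := rfl

theorem tr_eq_iff (x : XX L) {n : ℕ} (s : Fin n → Ω) : tr x n = s ↔ ∀ i : Fin n, x.1 i = s i :=
  ⟨fun h i => by rw [← h]; rfl, fun h => funext h⟩

/-- the empty node -/
def nil (Ω : Type) : Fin 0 → Ω := Fin.elim0

theorem tr_zero (x : XX L) : tr x 0 = nil Ω := funext fun i => i.elim0

theorem inc_nil : Inc (nil Ω) := fun i => i.elim0

theorem nd_nil (k : ℕ) : Nd L (nil Ω) k = univ := eq_univ_of_forall fun _ i => i.elim0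

/-- Nodes of a sequence of successive choices: if `P` is a property of nodes which holds at `s`
and can always be extended, there is a point of the space all of whose truncations of length
at least the length of `s` satisfy `P`, which extends `s`. -/
theorem branch (P : ∀ n, (Fin n → Ω) → Prop) {n : ℕ} (s : Fin n → Ω) (hs : Inc s) (h0 : P n s)
    (hstep : ∀ m (t : Fin m → Ω), Inc t → P m t → ∃ a, (∀ i, t i < a) ∧ P (m + 1) (sn t a)) :
    ∃ x : XX L, tr x n = s ∧ ∀ m, n ≤ m → P m (tr x m) := by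
  classical
  -- the sequence of nodes
  let T : ℕ → Type := fun m => {t : Fin m → Ω // Inc t ∧ P m t}
  choose g hg1 hg2 using fun (m : ℕ) (t : T m) => hstep m t.1 t.2.1 t.2.2
  let u : ∀ j : ℕ, T (n + j) := fun j => Nat.rec (motive := fun j => T (n + j)) ⟨s, hs, h0⟩
    (fun j t => ⟨sn t.1 (g (n + j) t), inc_sn.2 ⟨t.2.1, hg1 _ t⟩, hg2 _ t⟩) j
  have hu : ∀ j, (u (j + 1)).1 = sn (u j).1 (g (n + j) (u j)) := fun j => rfl
  -- value at position i : take any u j with i < n + j
  let x : ℕ → Ω := fun i => (u (i + 1)).1 ⟨i, by omega⟩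
  have hx : ∀ j i (hi : i < n + j), (u j).1 ⟨i, hi⟩ = x i := by
    have key : ∀ d j i (hi : i < n + j), (u (j + d)).1 ⟨i, by omega⟩ = (u j).1 ⟨i, hi⟩ := by
      intro d
      induction d with
      | zero => intro j i hi; rfl
      | succ d ih =>
        intro j i hi
        have h1 : (u (j + d + 1)).1 ⟨i, by omega⟩ = (u (j + d)).1 ⟨i, by omega⟩ := by
          rw [hu]
          exact sn_of_lt _ _ i (by omega)
        exact h1.trans (ih j i hi)
    intro j i hi
    rcases le_total j (i + 1) with h | h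
    · obtain ⟨d, hd⟩ := Nat.exists_eq_add_of_le h
      have := key d j i hi
      have h2 : x i = (u (j + d)).1 ⟨i, by omega⟩ := by
        have gen : ∀ m (hm : m = j + d) (h' : i < n + m),
            (u m).1 ⟨i, h'⟩ = (u (j + d)).1 ⟨i, by omega⟩ := by
          rintro m rfl h'
          rfl
        exact gen _ hd _
      rw [h2, this]
    · obtain ⟨d, hd⟩ := Nat.exists_eq_add_of_le h
      subst hd
      exact key d (i + 1) i (by omega)
  have hmono : StrictMono x := by
    intro i j hij
    rw [← hx (j + 1) i (by omega), ← hx (j + 1) j (by omega)]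
    exact (u (j + 1)).2.1 _ _ (by simpa using hij)
  refine ⟨⟨x, hmono⟩, ?_, ?_⟩
  · funext i
    exact (hx 0 i.1 i.2).symm
  · intro m hm
    obtain ⟨d, rfl⟩ := Nat.exists_eq_add_of_le hm
    have : tr (L := L) ⟨x, hmono⟩ (n + d) = (u d).1 := by
      funext i
      exact (hx d i.1 i.2).symm
    rw [this]
    exact (u d).2.2

end CWG
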