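import Pool.Agent.Work.MP_8b5b22_gt.G.Top

/-!
# Module PPa (S-M): open partitions refining a cover (general topology)

`PP 𝒢 Y`: `Y` is clopen and there is `f` with `f y` open, `y ∈ f y ⊆ Y`, `f y ⊆ G` for some
`G ∈ 𝒢`, `f z = f y` for `z ∈ f y` (all `y ∈ Y`).

* `pp_of_sub`: `Y` clopen, `Y ⊆ G ∈ 𝒢`: `f y = Y`.
* `pp_restrict`: `f' y = f y ∩ Z`.
* `pp_glue`: let `p` be such that for `y ∈ Y`: `p y` open, `y ∈ p y ⊆ Y`, `p z = p y` for
  `z ∈ p y`, and `PP 𝒢 (p y)`.  For each set `P` with `PP 𝒢 P` choose a function `h P` as in the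
  definition, and put `f y = h (p y) y`.  If `z ∈ f y` then `z ∈ p y`, so `p z = p y` and
  `f z = h (p y) z = h (p y) y`.
* `pp_countable`: let `Y ⊆ ⋃ l, A l` with `PP 𝒢 (A l)` for all `l : ℕ`, `Y` clopen.  For `y ∈ Y`
  let `λ` be the least `l` with `y ∈ A l` and `p y = (Y ∩ A λ) \ ⋃ l < λ, A l`, clopen (finite
  union), contained in `A λ`; `pp_restrict`, `pp_glue`.
* `pp_biUnion`: the same for a countable index set.
-/

open Set
open scoped Topology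

namespace CWG

variable {Ω : Type} [LinearOrder Ω] {L : NS Ω}

theorem pp_of_sub {𝒢 : Set (Set (XX L))} {Y G : Set (XX L)} (hY : IsClopen Y) (hG : G ∈ 𝒢)
    (h : Y ⊆ G) : PP 𝒢 Y :=
  ⟨hY, fun _ => Y, fun _ hy => ⟨hY.isOpen, hy, Subset.rfl, ⟨G, hG, h⟩, fun _ _ => rfl⟩⟩

theorem pp_restrict {𝒢 : Set (Set (XX L))} {Y Z : Set (XX L)} (hY : PP 𝒢 Y) (hZ : IsClopen Z)
    (h : Z ⊆ Y) : PP 𝒢 Z := by
  obtain ⟨_, f, hf⟩ := hY
  refine ⟨hZ, fun y => f y ∩ Z, fun y hy => ?_⟩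
  obtain ⟨h1, h2, _, ⟨G, hG, h4⟩, h5⟩ := hf y (h hy)
  refine ⟨h1.inter hZ.isOpen, ⟨h2, hy⟩, inter_subset_right, ⟨G, hG, inter_subset_left.trans h4⟩, ?_⟩
  intro z hz
  dsimp only
  rw [h5 z hz.1]

theorem pp_glue {𝒢 : Set (Set (XX L))} {Y : Set (XX L)} (hY : IsClopen Y)
    (p : XX L → Set (XX L)) (h1 : ∀ y ∈ Y, y ∈ p y) (h2 : ∀ y ∈ Y, p y ⊆ Y)
    (h3 : ∀ y ∈ Y, ∀ z ∈ p y, p z = p y) (h4 : ∀ y ∈ Y, PP 𝒢 (p y)) : PP 𝒢 Y := by
  classical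
  have hex : ∀ P : Set (XX L), ∃ f : XX L → Set (XX L), PP 𝒢 P → ∀ y ∈ P, IsOpen (f y) ∧
      y ∈ f y ∧ f y ⊆ P ∧ (∃ G ∈ 𝒢, f y ⊆ G) ∧ ∀ z ∈ f y, f z = f y := by
    intro P
    by_cases hP : PP 𝒢 P
    · obtain ⟨_, f, hf⟩ := hP
      exact ⟨f, fun _ => hf⟩
    · exact ⟨fun _ => univ, fun h => absurd h hP⟩
  choose g hg using hex
  refine ⟨hY, fun y => g (p y) y, fun y hy => ?_⟩
  obtain ⟨g1, g2, g3, g4, g5⟩ := hg (p y) (h4 y hy) y (h1 y hy)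
  refine ⟨g1, g2, g3.trans (h2 y hy), g4, fun z hz => ?_⟩
  dsimp only
  rw [h3 y hy z (g3 hz), g5 z hz]

theorem pp_countable {𝒢 : Set (Set (XX L))} {Y : Set (XX L)} (hY : IsClopen Y)
    (A : ℕ → Set (XX L)) (hA : ∀ l, PP 𝒢 (A l)) (h : Y ⊆ ⋃ l, A l) : PP 𝒢 Y := by
  classical
  have hlam : ∀ y, ∃ l, (y ∈ Y → y ∈ A l) ∧ ∀ l' < l, y ∉ A l' := by
    intro y
    by_cases hex : ∃ l, y ∈ A l
    · exact ⟨Nat.find hex, fun _ => Nat.find_spec hex, fun l' hl' => Nat.find_min hex hl'⟩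
    · exact ⟨0, fun hy => absurd (mem_iUnion.1 (h hy)) hex, fun l' hl' =>
        absurd hl' (Nat.not_lt_zero _)⟩
  choose lam hlam1 hlam2 using hlam
  have hcl : ∀ y, IsClopen ((Y ∩ A (lam y)) \ ⋃ l ∈ Finset.range (lam y), A l) := fun y =>
    (hY.inter (hA _).1).diff (isClopen_biUnion_finset fun l _ => (hA l).1)
  refine pp_glue hY (fun y => (Y ∩ A (lam y)) \ ⋃ l ∈ Finset.range (lam y), A l) ?_ ?_ ?_ ?_
  · intro y hy
    refine ⟨⟨hy, hlam1 y hy⟩, fun hcon => ?_⟩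
    simp only [mem_iUnion, Finset.mem_range] at hcon
    obtain ⟨l, hl, hyl⟩ := hcon
    exact hlam2 y l hl hyl
  · intro y _ z hz
    exact hz.1.1
  · intro y hy z hz
    have hzl : ∀ l < lam y, z ∉ A l := by
      intro l hl hzl
      apply hz.2
      simp only [mem_iUnion, Finset.mem_range]
      exact ⟨l, hl, hzl⟩
    have e : lam z = lam y := by
      apply le_antisymm
      · by_contra hcon
        exact hlam2 z _ (not_le.1 hcon) hz.1.2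
      · by_contra hcon
        exact hzl _ (not_le.1 hcon) (hlam1 z hz.1.1)
    rw [e]
  · intro y _
    exact pp_restrict (hA (lam y)) (hcl y) fun z hz => hz.1.2

theorem pp_biUnion {𝒢 : Set (Set (XX L))} {Y : Set (XX L)} (hY : IsClopen Y) {ι : Type*}
    {T : Set ι} (hT : T.Countable) (A : ι → Set (XX L)) (hA : ∀ i ∈ T, PP 𝒢 (A i))
    (h : Y ⊆ ⋃ i ∈ T, A i) : PP 𝒢 Y := by
  rcases T.eq_empty_or_nonempty with rfl | hne
  · refine ⟨hY, fun _ => univ, fun y hy => ?_⟩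
    have := h hy
    simp at this
  · obtain ⟨f, hf⟩ := hT.exists_eq_range hne
    refine pp_countable hY (fun n => A (f n)) (fun n => hA _ (by rw [hf]; exact mem_range_self n)) ?_
    rw [hf, biUnion_range] at h
    exact h

end CWG
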