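import Pool.Agent.Work.MP_8b5b22_gt.G.ClubA

/-!
# Module QLem (M): clopen sets between clubs

For every club `C` there are a set `Q ⊆ C`, clopen for the neighbourhood system and containing a
club `D`, and a label `c : Ω → Ω`, `z ≤ c z`, which is locally constant outside `Q`.

Proof.  `L.P1 C` gives a club `D₁'`, let `D₁ = D₁' ∩ C` : every `z ∈ D₁` has `k` with `U z k ⊆ C`.
`L.P1 D₁` gives `D₂'`, let `D₂ = D₂' ∩ D₁` (a club, `club_inter`): every `z ∈ D₂` has `k` with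
`U z k ⊆ D₁`.  Let `D = LimPt D₂`, a club contained in `D₂` (`club_lim`, `lim_sub`).

`c z :=` the least element of `D₂` which is `≥ z` (`WellFounded.min`, `D₂` is unbounded).
(a) If `d ∉ LimPt D₂` there is `k` such that for all `z ∈ U d k`: `z ∉ LimPt D₂` and `c z = c d`.
Indeed, if `d` is the least element of `Ω`, `U d k = {d}` (`L.le`).  Otherwise there is `b < d`
such that no member of `D₂` is strictly between `b` and `d`; take `k` with `U d k` above `b`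
(`L.low`); for `b < z ≤ d`: the members of `D₂` which are `≥ z` are the same as those `≥ d`, so
`c z = c d`; and `z` is not a limit of `D₂`.

Let `κ z` be such that `U z (κ z) ⊆ C` if `z ∈ D₁`, and `U z (κ z)` disjoint from `D₁` if
`z ∉ D₁` (exists: as `z` is not a limit of `D₁`, `z` is the least element of `Ω` and
`U z k = {z}`, or there is `b < z` with no member of `D₁` strictly between; `L.low`, `L.le`).
For `g : Ω` let `e g : ℕ → Ω` have range `Iic g` (countable nonempty,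
`Set.Countable.exists_eq_range`).  For `z : Ω` there is `j` with `z ∈ U (e (c z) j) (κ (e (c z) j))`:
take `e (c z) j = z`; `L.self`.  Let `idx z` be the least such `j` (`Nat.find`) and
`w z = e (c z) (idx z)`.  Let `Q = {z | z ∈ LimPt D₂ ∨ w z ∈ D₁}`.

(b) If `d ∉ LimPt D₂` there is `k` with `z ∉ LimPt D₂`, `c z = c d`, `w z = w d` for all
`z ∈ U d k`: by (a) `c z = c d = g`; `idx` is constant near `d` since `d ∈ U (e g j) (κ (e g j))`
for `j = idx d`, an open condition (`L.opn`), and `d ∉ U (e g i) (κ (e g i))` for `i < j`, open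
conditions (`L.cls`), finitely many of them (take the maximum of the levels, `L.anti`).

* `Q ⊆ C`: `LimPt D₂ ⊆ D₂ ⊆ C`; if `w z ∈ D₁` then `z ∈ U (w z) (κ (w z)) ⊆ C`.
* every `d ∈ Q` has `U d k ⊆ Q`: if `d ∉ LimPt D₂` by (b).  If `d ∈ LimPt D₂ ⊆ D₂` take `k` with
  `U d k ⊆ D₁`; for `z ∈ U d k ⊆ D₁`: `z ∈ U (w z) (κ (w z))`, so if `w z ∉ D₁` this set would be
  disjoint from `D₁ ∋ z`; so `w z ∈ D₁` and `z ∈ Q`.
* every `d ∉ Q` has `k` with `z ∉ Q`, `c z = c d` for `z ∈ U d k`: by (b).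
-/

open Set

namespace CWG

variable {Ω : Type} [LinearOrder Ω] [WellFoundedLT Ω]

private theorem QLem_gap (L : NS Ω) {E : Set Ω} {d : Ω} (hd : d ∉ LimPt E) :
    ∃ k, ∀ z ∈ L.U d k, ∀ e ∈ E, e < d → e < z := by
  by_cases h : ∃ b, b < d
  · obtain ⟨b, hb, hbE⟩ : ∃ b, b < d ∧ ∀ e ∈ E, b < e → ¬ e < d := by
      by_contra hcon
      push Not at hcon
      apply hd
      refine ⟨h, fun b hb => ?_⟩
      obtain ⟨e, he, h1, h2⟩ := hcon b hb
      exact ⟨e, he, h1, h2⟩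
    obtain ⟨k, hk⟩ := L.low d b hb
    refine ⟨k, fun z hz e he hed => ?_⟩
    have h1 : ¬ b < e := fun h => hbE e he h hed
    exact (not_lt.1 h1).trans_lt (hk z hz)
  · exact ⟨0, fun z _ e _ hed => absurd ⟨e, hed⟩ h⟩

theorem exists_Q (hO : Om Ω) (L : NS Ω) (C : Set Ω) (hC : Club C) :
    ∃ (Q : Set Ω) (c : Ω → Ω) (D : Set Ω), Q ⊆ C ∧ Club D ∧ D ⊆ Q ∧
      (∀ d ∈ Q, ∃ k, L.U d k ⊆ Q) ∧
      (∀ d, d ∉ Q → ∃ k, ∀ z ∈ L.U d k, z ∉ Q ∧ c z = c d) ∧
      (∀ z, z ≤ c z) := by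
  classical
  obtain ⟨D₁', hD₁', h1⟩ := L.P1 C hC
  obtain ⟨D₁, hD₁e⟩ : ∃ D₁, D₁ = D₁' ∩ C := ⟨_, rfl⟩
  have hD₁ : Club D₁ := by rw [hD₁e]; exact club_inter hO hD₁' hC
  obtain ⟨D₂', hD₂', h2⟩ := L.P1 D₁ hD₁
  obtain ⟨D₂, hD₂e⟩ : ∃ D₂, D₂ = D₂' ∩ D₁ := ⟨_, rfl⟩
  have hD₂ : Club D₂ := by rw [hD₂e]; exact club_inter hO hD₂' hD₁
  have hD₂₁ : D₂ ⊆ D₁ := by rw [hD₂e]; exact inter_subset_right
  -- the label
  have hne : ∀ z, {g | g ∈ D₂ ∧ z ≤ g}.Nonempty := by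
    intro z
    obtain ⟨b, hb, h⟩ := hD₂.1 z
    exact ⟨b, hb, h.le⟩
  have hcex : ∀ z, ∃ g, (g ∈ D₂ ∧ z ≤ g) ∧ ∀ g', g' ∈ D₂ → z ≤ g' → g ≤ g' := by
    intro z
    refine ⟨WellFounded.min wellFounded_lt _ (hne z), WellFounded.min_mem wellFounded_lt _ (hne z),
      fun g' hg' hzg' => ?_⟩
    have h3 : g' ∈ {g | g ∈ D₂ ∧ z ≤ g} := ⟨hg', hzg'⟩
    exact not_lt.1 (WellFounded.not_lt_min wellFounded_lt _ h3)
  choose c hc1 hc2 using hcex
  have ha : ∀ d, d ∉ LimPt D₂ → ∃ k, ∀ z ∈ L.U d k, z ∉ LimPt D₂ ∧ c z = c d := by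
    intro d hd
    obtain ⟨k, hk⟩ := QLem_gap L hd
    refine ⟨k, fun z hz => ?_⟩
    have hzd := L.le _ _ _ hz
    constructor
    · intro hzl
      rcases hzd.lt_or_eq with h3 | h3
      · exact lt_irrefl _ (hk z hz z (lim_sub hD₂ hzl) h3)
      · rw [h3] at hzl
        exact hd hzl
    · apply le_antisymm
      · exact hc2 z (c d) (hc1 d).1 (hzd.trans (hc1 d).2)
      · apply hc2 d (c z) (hc1 z).1
        by_contra hcon
        rw [not_le] at hcon
        exact absurd (hk z hz (c z) (hc1 z).1 hcon) (not_lt.2 (hc1 z).2)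
  -- the levels
  have hκ : ∀ z, ∃ k, (z ∈ D₁ → L.U z k ⊆ C) ∧ (z ∉ D₁ → ∀ w ∈ L.U z k, w ∉ D₁) := by
    intro z
    by_cases hz : z ∈ D₁
    · have h3 : z ∈ D₁' := by rw [hD₁e] at hz; exact hz.1
      obtain ⟨k, hk⟩ := h1 z h3
      exact ⟨k, fun _ => hk, fun h => absurd hz h⟩
    · have h3 : z ∉ LimPt D₁ := fun h => hz (lim_sub hD₁ h)
      obtain ⟨k, hk⟩ := QLem_gap L h3
      refine ⟨k, fun h => absurd h hz, fun _ w hw hwD => ?_⟩
      rcases (L.le _ _ _ hw).lt_or_eq with h4 | h4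
      · exact lt_irrefl _ (hk w hw w hwD h4)
      · rw [h4] at hwD
        exact hz hwD
  choose κ hκ1 hκ2 using hκ
  have he : ∀ g : Ω, ∃ e : ℕ → Ω, Iic g = range e := by
    intro g
    have h3 : (Iic g).Countable := by
      rw [← Iio_insert]
      exact (hO.1 g).insert g
    exact h3.exists_eq_range ⟨g, le_rfl⟩
  choose e he using he
  have hidx : ∀ z, ∃ j, z ∈ L.U (e (c z) j) (κ (e (c z) j)) := by
    intro z
    have h3 : z ∈ Iic (c z) := (hc1 z).2
    rw [he (c z)] at h3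
    obtain ⟨j, hj⟩ := h3
    exact ⟨j, by rw [hj]; exact L.self _ _⟩
  obtain ⟨idx, hidx1, hidx2⟩ : ∃ idx : Ω → ℕ,
      (∀ z, z ∈ L.U (e (c z) (idx z)) (κ (e (c z) (idx z)))) ∧
      ∀ z j, z ∈ L.U (e (c z) j) (κ (e (c z) j)) → idx z ≤ j :=
    ⟨fun z => Nat.find (hidx z), fun z => Nat.find_spec (hidx z), fun z j hj =>
      Nat.find_min' (hidx z) hj⟩
  obtain ⟨w, hw⟩ : ∃ w : Ω → Ω, ∀ z, w z = e (c z) (idx z) := ⟨_, fun _ => rfl⟩
  have hwU : ∀ z, z ∈ L.U (w z) (κ (w z)) := by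
    intro z
    rw [hw]
    exact hidx1 z
  have hb : ∀ d, d ∉ LimPt D₂ → ∃ k, ∀ z ∈ L.U d k, z ∉ LimPt D₂ ∧ c z = c d ∧ w z = w d := by
    intro d hd
    obtain ⟨ka, hka⟩ := ha d hd
    obtain ⟨kb, hkb⟩ := L.opn _ _ _ (hidx1 d)
    have hl : ∀ i, ∃ l, i < idx d → Disjoint (L.U d l) (L.U (e (c d) i) (κ (e (c d) i))) := by
      intro i
      by_cases hi : i < idx d
      · have h3 : d ∉ L.U (e (c d) i) (κ (e (c d) i)) := fun h =>
          absurd (hidx2 d i h) (not_le.2 hi)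
        obtain ⟨l, hl⟩ := L.cls _ _ _ h3
        exact ⟨l, fun _ => hl⟩
      · exact ⟨0, fun h => absurd h hi⟩
    choose l hl using hl
    refine ⟨max ka (max kb ((Finset.range (idx d)).sup l)), fun z hz => ?_⟩
    have hza : z ∈ L.U d ka := L.anti _ _ _ (le_max_left _ _) hz
    have hzb : z ∈ L.U d kb := L.anti _ _ _ ((le_max_left _ _).trans (le_max_right _ _)) hz
    obtain ⟨g1, g2⟩ := hka z hza
    refine ⟨g1, g2, ?_⟩
    have g3 : idx z = idx d := by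
      apply le_antisymm
      · apply hidx2
        rw [g2]
        exact hkb hzb
      · by_contra hcon
        rw [not_le] at hcon
        have g4 := hidx1 z
        rw [g2] at g4
        have g5 : z ∈ L.U d (l (idx z)) := by
          refine L.anti _ _ _ ?_ hz
          exact (Finset.le_sup (f := l) (Finset.mem_range.2 hcon)).trans
            ((le_max_right _ _).trans (le_max_right _ _))
        exact Set.disjoint_left.1 (hl _ hcon) g5 g4
    rw [hw, hw, g2, g3]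
  refine ⟨{z | z ∈ LimPt D₂ ∨ w z ∈ D₁}, c, LimPt D₂, ?_, club_lim hO hD₂, fun z hz => Or.inl hz,
    ?_, ?_, fun z => (hc1 z).2⟩
  · rintro z (hz | hz)
    · have h3 := hD₂₁ (lim_sub hD₂ hz)
      rw [hD₁e] at h3
      exact h3.2
    · exact hκ1 (w z) hz (hwU z)
  · intro d hd
    by_cases hdl : d ∈ LimPt D₂
    · have h3 : d ∈ D₂' := by
        have := lim_sub hD₂ hdl
        rw [hD₂e] at this
        exact this.1
      obtain ⟨k, hk⟩ := h2 d h3
      refine ⟨k, fun z hz => Or.inr ?_⟩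
      by_contra hcon
      exact hκ2 (w z) hcon z (hwU z) (hk hz)
    · obtain ⟨k, hk⟩ := hb d hdl
      refine ⟨k, fun z hz => Or.inr ?_⟩
      rw [(hk z hz).2.2]
      exact hd.resolve_left hdl
  · intro d hd
    have hdl : d ∉ LimPt D₂ := fun h => hd (Or.inl h)
    have hdw : w d ∉ D₁ := fun h => hd (Or.inr h)
    obtain ⟨k, hk⟩ := hb d hdl
    refine ⟨k, fun z hz => ⟨?_, (hk z hz).2.1⟩⟩
    rintro (h | h)
    · exact (hk z hz).1 h
    · rw [(hk z hz).2.2] at h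
      exact hdw h

end CWG
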