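import Pool.Agent.Work.MP_8b5b22_gt.G.PPa
import Pool.Agent.Work.MP_8b5b22_gt.G.QLem
import Pool.Agent.Work.MP_8b5b22_gt.G.GoodA

/-!
# Module PPb (L): the step lemma

Let `s` be an increasing node of length `n`, such that every `sn s a`, `a` above `s`, and every
`sn (pre s i) a`, `a < s i`, `a` above `pre s i`, is a node with a partitionable neighbourhood
(`∃ k, PP 𝒢 (Nd L _ k)`), and such that some `G ∈ 𝒢` has good complement at `s`.  Then
`∃ k, PP 𝒢 (Nd L s k)`.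

Proof.  Let `m, k, C` be such that no `y ∈ Gᶜ ∩ Nd L s k` has `y (n+i) ∈ C` for all `i ≤ m`.
Let `Q, c, D` be from `exists_Q` for `C`.  The set `{y | y l ∈ Q}` is clopen for every `l`
(`coord_open` for `Q` and for the complement of `Q`), and so are, for all `l` and `g`, the sets
`{y | y l ∉ Q ∧ c (y l) = g}` (`coord_open` for `{z | z ∉ Q ∧ c z = g}` and for its complement:
if `z ∉ Q` and `c z ≠ g` use local constancy, if `z ∈ Q` use openness of `Q`).
Let `Y = Nd L s k` (clopen: `nd_open`, `nd_closed`).  For `y ∈ Y`: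
if `y (n+i) ∈ Q` for all `i ≤ m`, let `p y = P₀ := {z ∈ Y | ∀ i ≤ m, z (n+i) ∈ Q}`; it is clopen
and contained in `G`, as `Q ⊆ C`; so `PP 𝒢 P₀` (`pp_of_sub`).
Otherwise let `j ≤ m` be least with `y (n+j) ∉ Q`, `g = c (y (n+j))` and
`p y = P j g := {z ∈ Y | (∀ i < j, z (n+i) ∈ Q) ∧ z (n+j) ∉ Q ∧ c (z (n+j)) = g}`, clopen.
The hypotheses `h1, h2, h3` of `pp_glue` are clear.  `PP 𝒢 (P j g)`: by `pp_biUnion`, it is enough
to cover `P j g` by countably many sets `Nd L t k'` with `PP 𝒢 (Nd L t k')`.  Let `z ∈ P j g`.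
All `z i` with `i ≤ n + j` are `≤ z (n+j) ≤ c (z (n+j)) = g`.
Case `tr z n = s`: `a = z n ≤ g` is above `s` (`tr_lt`), the node `sn s a = tr z (n+1)` has a
partitionable neighbourhood, which contains `z` (`mem_nd`).
Case `tr z n ≠ s`: let `i` be least with `z i ≠ s i`; as `z ∈ Nd L s k`, `z i ∈ U (s i) k` so
`z i ≤ s i`, `a = z i < s i`; `tr z (i+1) = sn (pre s i) a` has a partitionable neighbourhood,
which contains `z`.
So the index set `{(none, a) | a ≤ g} ∪ {(some i, a) | i : Fin n, a < s i}` (countable: `Iic g`,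
`Iio (s i)` are) does it; for `a` not above the node in question use the empty set (`PP 𝒢 ∅`
holds by `pp_restrict` or directly).
-/

open Set
open scoped Topology

namespace CWG

variable {Ω : Type} [LinearOrder Ω] [WellFoundedLT Ω] {L : NS Ω}

theorem pp_step (hO : Om Ω) (𝒢 : Set (Set (XX L))) {n : ℕ} (s : Fin n → Ω) (hs : Inc s)
    (h1 : ∀ a, (∀ i, s i < a) → ∃ k, PP 𝒢 (Nd L (sn s a) k))
    (h2 : ∀ (i : Fin n) (a : Ω), a < s i → (∀ j, pre s i j < a) →
      ∃ k, PP 𝒢 (Nd L (sn (pre s i) a) k))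
    (G : Set (XX L)) (hG : G ∈ 𝒢) (hgood : Good Gᶜ s) : ∃ k, PP 𝒢 (Nd L s k) := by
  classical
  obtain ⟨m, k, C, hC, hgd⟩ := hgood
  obtain ⟨Q, c, D, hQC, hD, hDQ, hQo, hQc, hcz⟩ := exists_Q hO L C hC
  refine ⟨k, ?_⟩
  have hQcl : ∀ l, IsClopen {y : XX L | y.1 l ∈ Q} := by
    intro l
    refine ⟨?_, coord_open L l Q hQo⟩
    have h : IsOpen {y : XX L | y.1 l ∈ Qᶜ} := coord_open L l Qᶜ (fun d hd => by
      obtain ⟨k', hk'⟩ := hQc d hd
      exact ⟨k', fun z hz => (hk' z hz).1⟩)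
    have e : {y : XX L | y.1 l ∈ Q} = {y : XX L | y.1 l ∈ Qᶜ}ᶜ := by
      ext y; simp
    rw [e]
    exact h.isClosed_compl
  have hRcl : ∀ l g, IsClopen {y : XX L | y.1 l ∉ Q ∧ c (y.1 l) = g} := by
    intro l g
    have ho : IsOpen {y : XX L | y.1 l ∈ {z | z ∉ Q ∧ c z = g}} :=
      coord_open L l _ (fun d hd => by
        obtain ⟨k', hk'⟩ := hQc d hd.1
        exact ⟨k', fun z hz => ⟨(hk' z hz).1, ((hk' z hz).2).trans hd.2⟩⟩)
    have hc : IsOpen {y : XX L | y.1 l ∈ {z | z ∉ Q ∧ c z = g}ᶜ} :=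
      coord_open L l _ (fun d hd => by
        by_cases hdQ : d ∈ Q
        · obtain ⟨k', hk'⟩ := hQo d hdQ
          exact ⟨k', fun z hz hz' => hz'.1 (hk' hz)⟩
        · obtain ⟨k', hk'⟩ := hQc d hdQ
          exact ⟨k', fun z hz hz' => hd ⟨hdQ, ((hk' z hz).2).symm.trans hz'.2⟩⟩)
    refine ⟨?_, ho⟩
    have e : {y : XX L | y.1 l ∉ Q ∧ c (y.1 l) = g} =
        {y : XX L | y.1 l ∈ {z | z ∉ Q ∧ c z = g}ᶜ}ᶜ := by
      ext y; simp
    rw [e]
    exact hc.isClosed_compl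
  have hY : IsClopen (Nd L s k) := ⟨nd_closed L s k, nd_open L s k⟩
  have hPre : ∀ j, IsClopen (⋂ i ∈ Finset.range j, {y : XX L | y.1 (n + i) ∈ Q}) := fun j =>
    isClopen_biInter_finset fun i _ => hQcl (n + i)
  let P0 : Set (XX L) := Nd L s k ∩ ⋂ i ∈ Finset.range (m + 1), {y : XX L | y.1 (n + i) ∈ Q}
  let PR : ℕ → Ω → Set (XX L) := fun j g =>
    (Nd L s k ∩ ⋂ i ∈ Finset.range j, {y : XX L | y.1 (n + i) ∈ Q}) ∩
      {y : XX L | y.1 (n + j) ∉ Q ∧ c (y.1 (n + j)) = g}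
  let p : XX L → Set (XX L) := fun y =>
    if h : ∃ i, i ≤ m ∧ y.1 (n + i) ∉ Q then PR (Nat.find h) (c (y.1 (n + Nat.find h))) else P0
  have memP0 : ∀ z, z ∈ P0 ↔ z ∈ Nd L s k ∧ ∀ i ≤ m, z.1 (n + i) ∈ Q := by
    intro z
    simp only [P0, mem_inter_iff, mem_iInter, Finset.mem_range, mem_setOf_eq, Nat.lt_succ_iff]
  have memPR : ∀ j g z, z ∈ PR j g ↔ z ∈ Nd L s k ∧ (∀ i < j, z.1 (n + i) ∈ Q) ∧
      z.1 (n + j) ∉ Q ∧ c (z.1 (n + j)) = g := by
    intro j g z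
    simp only [PR, mem_inter_iff, mem_iInter, Finset.mem_range, mem_setOf_eq, and_assoc]
  have key1 : ∀ z ∈ P0, p z = P0 := by
    intro z hz
    have : ¬ ∃ i, i ≤ m ∧ z.1 (n + i) ∉ Q := by
      rintro ⟨i, hi, hiQ⟩
      exact hiQ (((memP0 z).1 hz).2 i hi)
    simp only [p, dif_neg this]
  have key2 : ∀ j ≤ m, ∀ g, ∀ z ∈ PR j g, p z = PR j g := by
    intro j hj g z hz
    obtain ⟨hz1, hz2, hz3, hz4⟩ := (memPR j g z).1 hz
    have hex : ∃ i, i ≤ m ∧ z.1 (n + i) ∉ Q := ⟨j, hj, hz3⟩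
    have hf : Nat.find hex = j := by
      apply le_antisymm
      · exact Nat.find_min' hex ⟨hj, hz3⟩
      · by_contra hcon
        exact (Nat.find_spec hex).2 (hz2 _ (not_le.1 hcon))
    simp only [p, dif_pos hex]
    rw [hf, hz4]
  have hcase : ∀ y ∈ Nd L s k, (y ∈ P0 ∧ p y = P0) ∨
      ∃ j ≤ m, ∃ g, y ∈ PR j g ∧ p y = PR j g := by
    intro y hy
    by_cases hex : ∃ i, i ≤ m ∧ y.1 (n + i) ∉ Q
    · right
      have hmem : y ∈ PR (Nat.find hex) (c (y.1 (n + Nat.find hex))) := by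
        refine (memPR _ _ _).2 ⟨hy, fun i hi => ?_, (Nat.find_spec hex).2, rfl⟩
        by_contra hcon
        exact Nat.find_min hex hi ⟨(le_of_lt hi).trans (Nat.find_spec hex).1, hcon⟩
      exact ⟨_, (Nat.find_spec hex).1, _, hmem, key2 _ (Nat.find_spec hex).1 _ _ hmem⟩
    · left
      have hmem : y ∈ P0 := by
        refine (memP0 y).2 ⟨hy, fun i hi => ?_⟩
        by_contra hcon
        exact hex ⟨i, hi, hcon⟩
      exact ⟨hmem, key1 y hmem⟩
  -- countable cover of the pieces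
  have hk1 : ∀ a, ∃ k', (∀ i, s i < a) → PP 𝒢 (Nd L (sn s a) k') := by
    intro a
    by_cases h : ∀ i, s i < a
    · obtain ⟨k', hk'⟩ := h1 a h
      exact ⟨k', fun _ => hk'⟩
    · exact ⟨0, fun h' => absurd h' h⟩
  have hk2 : ∀ (i : Fin n) (a : Ω), ∃ k', a < s i → (∀ j, pre s i j < a) →
      PP 𝒢 (Nd L (sn (pre s i) a) k') := by
    intro i a
    by_cases h : a < s i ∧ ∀ j, pre s i j < a
    · obtain ⟨k', hk'⟩ := h2 i a h.1 h.2
      exact ⟨k', fun _ _ => hk'⟩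
    · exact ⟨0, fun h' h'' => absurd ⟨h', h''⟩ h⟩
  choose k1 hk1 using hk1
  choose k2 hk2 using hk2
  have hPRclopen : ∀ j g, IsClopen (PR j g) := fun j g => (hY.inter (hPre j)).inter (hRcl _ _)
  have hIic : ∀ g : Ω, (Iic g).Countable := by
    intro g
    have : Iic g = insert g (Iio g) := by
      ext x; simp [le_iff_eq_or_lt]
    rw [this]
    exact (hO.1 g).insert g
  have hPR : ∀ j g, PP 𝒢 (PR j g) := by
    intro j g
    let T : Set (Set (XX L)) := {A | (∃ a ∈ Iic g, (∀ i, s i < a) ∧ A = Nd L (sn s a) (k1 a)) ∨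
      ∃ i : Fin n, ∃ a ∈ Iio (s i), (∀ j, pre s i j < a) ∧ A = Nd L (sn (pre s i) a) (k2 i a)}
    have hT : T.Countable := by
      have h1 : ((fun a => Nd L (sn s a) (k1 a)) '' Iic g ∪
          ⋃ i : Fin n, (fun a => Nd L (sn (pre s i) a) (k2 i a)) '' Iio (s i)).Countable :=
        ((hIic g).image _).union (countable_iUnion fun i => (hO.1 (s i)).image _)
      refine h1.mono ?_
      rintro A (⟨a, ha, _, rfl⟩ | ⟨i, a, ha, _, rfl⟩)
      · exact Or.inl ⟨a, ha, rfl⟩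
      · exact Or.inr (mem_iUnion.2 ⟨i, a, ha, rfl⟩)
    refine pp_biUnion (hPRclopen j g) hT (fun A => A) ?_ ?_
    · rintro A (⟨a, _, h, rfl⟩ | ⟨i, a, ha, h, rfl⟩)
      · exact hk1 a h
      · exact hk2 i a ha h
    · intro z hz
      obtain ⟨hz1, hz2, hz3, hz4⟩ := (memPR j g z).1 hz
      have hzg : z.1 n ≤ g := by
        have : z.1 n ≤ z.1 (n + j) := z.2.monotone (Nat.le_add_right n j)
        exact this.trans ((hcz _).trans hz4.le)
      simp only [mem_iUnion]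
      by_cases hzs : tr z n = s
      · have hab : ∀ i, s i < z.1 n := by
          intro i
          rw [← hzs]
          exact tr_lt z n i
        refine ⟨Nd L (sn s (z.1 n)) (k1 (z.1 n)), Or.inl ⟨z.1 n, hzg, hab, rfl⟩, ?_⟩
        rw [← hzs, ← tr_succ]
        exact mem_nd L z (n + 1) _
      · have hex : ∃ i, ∃ h : i < n, z.1 i ≠ s ⟨i, h⟩ := by
          by_contra hcon
          push Not at hcon
          exact hzs ((tr_eq_iff z s).2 (fun i => hcon i.1 i.2))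
        obtain ⟨hi, hne⟩ := Nat.find_spec hex
        set i : ℕ := Nat.find hex with hidef
        have hmin : ∀ i' (h' : i' < n), i' < i → z.1 i' = s ⟨i', h'⟩ := by
          intro i' h' hlt
          by_contra hcon
          exact Nat.find_min hex hlt ⟨h', hcon⟩
        have hle : z.1 i ≤ s ⟨i, hi⟩ := L.le _ k _ (hz1 ⟨i, hi⟩).1
        have hlt : z.1 i < s ⟨i, hi⟩ := lt_of_le_of_ne hle hne
        have hpre : pre s ⟨i, hi⟩ = tr z i := by
          funext j'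
          exact (hmin j'.1 (j'.2.trans hi) j'.2).symm
        have hab : ∀ j', pre s ⟨i, hi⟩ j' < z.1 i := by
          intro j'
          rw [hpre]
          exact tr_lt z i j'
        refine ⟨Nd L (sn (pre s ⟨i, hi⟩) (z.1 i)) (k2 ⟨i, hi⟩ (z.1 i)),
          Or.inr ⟨⟨i, hi⟩, z.1 i, hlt, hab, rfl⟩, ?_⟩
        have e : sn (pre s ⟨i, hi⟩) (z.1 i) = tr z (i + 1) := by
          rw [hpre, tr_succ]
        rw [e]
        exact mem_nd L z (i + 1) _
  have hP0 : PP 𝒢 P0 := by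
    refine pp_of_sub (hY.inter (hPre (m + 1))) hG ?_
    intro z hz
    by_contra hcon
    obtain ⟨hz1, hz2⟩ := (memP0 z).1 hz
    exact hgd z hcon hz1 (fun i hi => hQC (hz2 i hi))
  refine pp_glue hY p ?_ ?_ ?_ ?_
  · intro y hy
    rcases hcase y hy with ⟨h, e⟩ | ⟨j, hj, g, h, e⟩
    · rw [e]; exact h
    · rw [e]; exact h
  · intro y hy
    rcases hcase y hy with ⟨h, e⟩ | ⟨j, hj, g, h, e⟩
    · rw [e]; exact fun z hz => ((memP0 z).1 hz).1
    · rw [e]; exact fun z hz => ((memPR j g z).1 hz).1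
  · intro y hy z hz
    rcases hcase y hy with ⟨h, e⟩ | ⟨j, hj, g, h, e⟩
    · rw [e] at hz ⊢; exact key1 z hz
    · rw [e] at hz ⊢; exact key2 j hj g z hz
  · intro y hy
    rcases hcase y hy with ⟨h, e⟩ | ⟨j, hj, g, h, e⟩
    · rw [e]; exact hP0
    · rw [e]; exact hPR j g

end CWG
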