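import Pool.Agent.Work.MP_8b5b22_gt.G.ClubB

/-!
# Module Rank (M): a rank function (Ulam matrix)

`Rk L` : a rank `r : Ω → Ω` which is regressive where it is not the least element `o`, such that
stationary sets `A n` are simultaneously hit by ladders of points of arbitrarily large rank.

Proof.  For `R : Set Ω` let `Bp R` mean: for every sequence `A` of stationary sets there is
`d ∈ R ∩ L.S` with `∀ n i, ∃ j ≥ i, L.η d j ∈ A n`.
(1) If `Bp (⋃ n, R n)` then `Bp (R n)` for some `n`: otherwise choose for each `n` a bad sequence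
`A n : ℕ → Set Ω`; the double sequence (`Nat.unpair`) is hit at some `d ∈ R n₀`: contradiction.
(2) `Bp (Ioi a)` for every `a`: apply `L.hit` to `A n ∩ Ioi a` (`stat_inter_club`, `club_Ioi`);
`a < η d j < d`.
Let `f d : Ω → ℕ` be injective on `Iio d` (`(hO.1 d)` : `Set.Countable.exists_injOn` or
`Set.countable_iff_exists_injOn`).  For `a : Ω`, `Ioi a = ⋃ n, U n a` where
`U n a = {d | a < d ∧ f d a = n}`; by (1) and (2) there is `n = N a` with `Bp (U n a)`.  There is
`n` such that `{a | N a = n}` is unbounded: otherwise `univ` would be a countable union of bounded,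
hence countable, sets (`Iic b` is countable).  Fix it and let `T = {a | o < a ∧ N a = n}`, where
`o` is the least element.  Define `r d := a` if there is `a ∈ T` with `a < d`, `f d a = n` and
`d ∈ L.S` (such `a` is unique by injectivity), and `r d := o` otherwise.  Then `r d ≠ o` implies
`d ∈ L.S`, `r d < d`.  Given `A` and `b`, choose `a ∈ T`, `a > b`; `Bp (U n a)` gives
`d ∈ U n a ∩ L.S` hitting all `A n`, and `r d = a > b`.
-/

open Set

namespace CWG

variable {Ω : Type} [LinearOrder Ω] [WellFoundedLT Ω]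

/-- rank function for the ladder `L` -/
structure Rk (L : Lad Ω) where
  o : Ω
  r : Ω → Ω
  least : ∀ a, o ≤ a
  lt : ∀ d, r d ≠ o → d ∈ L.S ∧ r d < d
  hit : ∀ A : ℕ → Set Ω, (∀ n, Stat (A n)) → ∀ b, ∃ d, b < r d ∧
    ∀ n i, ∃ j, i ≤ j ∧ L.η d j ∈ A n

/-- the points of `R` hit all sequences of stationary sets -/
private def Bp (L : Lad Ω) (R : Set Ω) : Prop :=
  ∀ A : ℕ → Set Ω, (∀ n, Stat (A n)) → ∃ d ∈ R, d ∈ L.S ∧ ∀ n i, ∃ j, i ≤ j ∧ L.η d j ∈ A n

omit [WellFoundedLT Ω] in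
private theorem bp_iUnion {L : Lad Ω} {R : ℕ → Set Ω} (h : Bp L (⋃ n, R n)) :
    ∃ n, Bp L (R n) := by
  by_contra hcon
  push Not at hcon
  have h1 : ∀ n, ∃ A : ℕ → Set Ω, (∀ k, Stat (A k)) ∧ ∀ d ∈ R n, d ∈ L.S →
      ∃ k i, ∀ j, i ≤ j → L.η d j ∉ A k := by
    intro n
    have h2 := hcon n
    unfold Bp at h2
    push Not at h2
    exact h2
  choose A hA hA' using h1
  obtain ⟨d, hd, hdS, hh⟩ := h (fun p => A p.unpair.1 p.unpair.2) fun p => hA _ _
  obtain ⟨n, hn⟩ := mem_iUnion.1 hd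
  obtain ⟨k, i, hki⟩ := hA' n d hn hdS
  obtain ⟨j, hj, hj'⟩ := hh (Nat.pair n k) i
  rw [Nat.unpair_pair] at hj'
  exact hki j hj hj'

private theorem bp_Ioi (hO : Om Ω) (L : Lad Ω) (a : Ω) : Bp L (Ioi a) := by
  intro A hA
  obtain ⟨d, hd, hh⟩ := L.hit (fun n => A n ∩ Ioi a)
    fun n => stat_inter_club hO (hA n) (club_Ioi hO a)
  refine ⟨d, ?_, hd, ?_⟩
  · obtain ⟨j, -, hj⟩ := hh 0 0
    exact lt_trans hj.2 (L.lt d hd j)
  · intro n i
    obtain ⟨j, hj, hj'⟩ := hh n i
    exact ⟨j, hj, hj'.1⟩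

theorem exists_rank (hO : Om Ω) (L : Lad Ω) : Nonempty (Rk L) := by
  classical
  have hf : ∀ d : Ω, ∃ f : Ω → ℕ, InjOn f (Iio d) := fun d =>
    Set.countable_iff_exists_injOn.1 (hO.1 d)
  choose f hf using hf
  have hN : ∀ a : Ω, ∃ n, Bp L {d | a < d ∧ f d a = n} := by
    intro a
    apply bp_iUnion
    have h1 : (⋃ n, {d | a < d ∧ f d a = n}) = Ioi a := by
      ext d
      simp
    rw [h1]
    exact bp_Ioi hO L a
  choose N hN using hN
  obtain ⟨n, hn⟩ : ∃ n, ∀ b, ∃ a, b < a ∧ N a = n := by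
    by_contra hcon
    push Not at hcon
    choose b hb using hcon
    apply hO.2
    have h1 : (univ : Set Ω) = ⋃ n, Iic (b n) := by
      symm
      rw [eq_univ_iff_forall]
      intro a
      rw [mem_iUnion]
      refine ⟨N a, ?_⟩
      by_contra h2
      exact hb (N a) a (not_le.1 h2) rfl
    rw [h1]
    refine countable_iUnion fun n => ?_
    have h2 : Iic (b n) = insert (b n) (Iio (b n)) := by
      ext x
      simp [le_iff_eq_or_lt]
    rw [h2]
    exact (hO.1 (b n)).insert _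
  have hne : (univ : Set Ω).Nonempty := by
    rw [Set.nonempty_iff_ne_empty]
    intro h0
    apply hO.2
    rw [h0]
    exact countable_empty
  obtain ⟨o, -, ho⟩ := (wellFounded_lt (α := Ω)).has_min univ hne
  have hle : ∀ a, o ≤ a := fun a => not_lt.1 (ho a (mem_univ a))
  let Q : Ω → Ω → Prop := fun d a => N a = n ∧ a < d ∧ f d a = n ∧ d ∈ L.S
  have huniq : ∀ d a a', Q d a → Q d a' → a = a' := by
    intro d a a' h1 h2
    exact hf d h1.2.1 h2.2.1 (h1.2.2.1.trans h2.2.2.1.symm)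
  refine ⟨{
    o := o
    r := fun d => if h : ∃ a, Q d a then h.choose else o
    least := hle
    lt := ?_
    hit := ?_ }⟩
  · intro d hd
    by_cases h : ∃ a, Q d a
    · have h1 : (if h : ∃ a, Q d a then h.choose else o) = h.choose := dif_pos h
      rw [h1]
      have h2 := h.choose_spec
      exact ⟨h2.2.2.2, h2.2.1⟩
    · have h1 : (if h : ∃ a, Q d a then h.choose else o) = o := dif_neg h
      exact absurd h1 hd
  · intro A hA b
    obtain ⟨a, hba, hNa⟩ := hn b
    have h1 := hN a A hA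
    rw [hNa] at h1
    obtain ⟨d, ⟨hd1, hd2⟩, hdS, hh⟩ := h1
    refine ⟨d, ?_, hh⟩
    have h : ∃ a, Q d a := ⟨a, hNa, hd1, hd2, hdS⟩
    have h2 : (if h : ∃ a, Q d a then h.choose else o) = h.choose := dif_pos h
    rw [h2, huniq d h.choose a h.choose_spec ⟨hNa, hd1, hd2, hdS⟩]
    exact hba

end CWG
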