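import Mathlib

/-!
# Module UFil (M, MATHLIB ONLY): countably complete ultrafilters on small sets are principal

`W` is a family of subsets of `ι`, upward closed, containing `A` or `Aᶜ` for each `A`, not
containing `∅`, closed under countable intersections.  If `ι` injects into the set of sequences
of elements of a well ordered set all of whose initial segments are countable, then `W`
contains a singleton.

Proof.  (1) `Ω` injects into `ℕ → Bool`: define `φ : Ω → (ℕ → Bool)` by well founded recursion
(`WellFounded.fix`) with `φ a ∉ φ '' (Iio a)`, possible as `φ '' (Iio a)` is countable and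
`ℕ → Bool` is not (`Cardinal` or Cantor: `Set.Countable` of `univ : Set (ℕ → Bool)` is false, e.g.
`not_countable`/`Function.cantor_surjective`); `φ` is injective by trichotomy.
(2) So `ι` injects into `ℕ → ℕ → Bool`: `θ i l m = φ (g i l) m`.
(3) For each `(l, m)` let `b l m : Bool` be such that `J l m = {i | θ i l m = b l m} ∈ W` (`hW2` for
`{i | θ i l m = true}`).  The intersection of all `J l m` (a countable intersection:
`Nat.unpair`) is in `W`, it has at most one element by injectivity, and it is not empty.  So it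
is a singleton.
-/

open Set

namespace CWG

/-- an injection into the Cantor set -/
private theorem exists_inj {Ω : Type} [LinearOrder Ω] [WellFoundedLT Ω]
    (hΩ : ∀ a : Ω, (Iio a).Countable) : ∃ φ : Ω → (ℕ → Bool), Function.Injective φ := by
  have hne : ∀ (a : Ω) (f : (b : Ω) → b < a → (ℕ → Bool)),
      ∃ x : ℕ → Bool, ∀ (b : Ω) (hb : b < a), f b hb ≠ x := by
    intro a f
    have hc : Countable (Iio a) := (hΩ a).to_subtype
    by_contra hcon
    push Not at hcon
    have hsur : Function.Surjective fun b : Iio a => f b.1 b.2 := by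
      intro x
      obtain ⟨b, hb, h⟩ := hcon x
      exact ⟨⟨b, hb⟩, h⟩
    have h2 : Countable (ℕ → Bool) := hsur.countable
    obtain ⟨g, hg⟩ := exists_surjective_nat (ℕ → Bool)
    obtain ⟨n, hn⟩ := hg fun k => !(g k k)
    have h3 := congrFun hn n
    simp at h3
  choose G hG using hne
  let φ : Ω → (ℕ → Bool) := (wellFounded_lt (α := Ω)).fix G
  have hφ : ∀ a, φ a = G a fun b _ => φ b := fun a => WellFounded.fix_eq _ _ _
  have hlt : ∀ a b : Ω, b < a → φ b ≠ φ a := by
    intro a b hab
    rw [hφ a]
    exact hG a (fun b _ => φ b) b hab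
  refine ⟨φ, fun a b hab => ?_⟩
  rcases lt_trichotomy a b with h | h | h
  · exact absurd hab (hlt b a h)
  · exact h
  · exact absurd hab.symm (hlt a b h)

theorem ufil {Ω : Type} [LinearOrder Ω] [WellFoundedLT Ω] (hΩ : ∀ a : Ω, (Iio a).Countable)
    {ι : Type} (g : ι → ℕ → Ω) (hg : Function.Injective g) (W : Set (Set ι))
    (hW2 : ∀ A : Set ι, A ∈ W ∨ Aᶜ ∈ W) (hW3 : (∅ : Set ι) ∉ W)
    (hW4 : ∀ A : ℕ → Set ι, (∀ n, A n ∈ W) → (⋂ n, A n) ∈ W) : ∃ i, {i} ∈ W := by
  obtain ⟨φ, hφ⟩ := exists_inj hΩ
  have h1 : ∀ l m : ℕ, ∃ b : Bool, {i : ι | φ (g i l) m = b} ∈ W := by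
    intro l m
    rcases hW2 {i : ι | φ (g i l) m = true} with h | h
    · exact ⟨true, h⟩
    · refine ⟨false, ?_⟩
      have h2 : {i : ι | φ (g i l) m = false} = {i : ι | φ (g i l) m = true}ᶜ := by
        ext i
        simp
      rw [h2]
      exact h
  choose b hb using h1
  have h2 := hW4 (fun n => {i : ι | φ (g i n.unpair.1) n.unpair.2 = b n.unpair.1 n.unpair.2})
    fun n => hb _ _
  have hmem : ∀ {i : ι}, (i ∈ ⋂ n : ℕ, {i : ι | φ (g i n.unpair.1) n.unpair.2 =
      b n.unpair.1 n.unpair.2}) → ∀ l m, φ (g i l) m = b l m := by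
    intro i hi l m
    have h3 := mem_iInter.1 hi (Nat.pair l m)
    simpa using h3
  obtain ⟨i, hi⟩ : (⋂ n : ℕ, {i : ι | φ (g i n.unpair.1) n.unpair.2 =
      b n.unpair.1 n.unpair.2}).Nonempty := by
    rw [Set.nonempty_iff_ne_empty]
    intro h0
    rw [h0] at h2
    exact hW3 h2
  refine ⟨i, ?_⟩
  have h3 : (⋂ n : ℕ, {i : ι | φ (g i n.unpair.1) n.unpair.2 = b n.unpair.1 n.unpair.2}) = {i} := by
    ext j
    rw [mem_singleton_iff]
    constructor
    · intro hj
      apply hg
      funext l
      apply hφ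
      funext m
      rw [hmem hj, hmem hi]
    · rintro rfl
      exact hi
  rw [← h3]
  exact h2

end CWG
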