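import Pool.Agent.Work.MP_8b5b22_gt.G.GoodC
import Pool.Agent.Work.MP_8b5b22_gt.G.UFil

/-!
# Module UF (M): discrete families at a node

Let `F i` (`i : ι`) be a discrete family of closed sets.  If `⋃ i, F i` is not good at `s`, there
is `i` with `F i` not good at `s` and `⋃ j ≠ i, F j` good at `s`.

Facts.  `disj`: `F i ∩ F j = ∅` for `i ≠ j` (a point of the intersection has a neighbourhood
meeting only one member).  `union_closed`: `⋃ i ∈ J, F i` is closed for every `J : Set ι`: the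
family is locally finite (`LocallyFinite.isClosed_iUnion`, or directly: let `x` be outside; `U` a
neighbourhood of `x` meeting at most one member; if it meets `F i`, `i ∈ J`, intersect with
`(F i)ᶜ`).

Proof of `uf`.  Let `ι' = {i // (F i).Nonempty}`; for `J : Set ι'` let
`F* J = ⋃ i ∈ J, F i.1`, closed.  `W = {J | ¬ Good (F* J) s}`.
`hW3`: `good_empty`.  `hW2`: if `F* J` and `F* Jᶜ` are both good then `⋃ i, F i`, contained in the
union of the two, is good by `good_of_cover` (`G 0 = F* J`, `G l = F* Jᶜ` for `l ≥ 1`).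
`hW4`: let `A l ∈ W` for all `l`.  Then `F* (A l)ᶜ` is good for each `l`: otherwise
`common_point` for the sequence `F* (A l), F* (A l)ᶜ, F* (A l)ᶜ, …` gives a point in
`F* (A l) ∩ F* (A l)ᶜ = ∅` (`disj`).  If `⋂ l, A l ∉ W` then `F* (⋂ l, A l)` is good, and
`⋃ i, F i ⊆ F* (⋂ l, A l) ∪ ⋃ l, F* (A l)ᶜ` would be good by `good_of_cover`: contradiction.
Injection: choose `x i ∈ F i.1` for `i : ι'`; `g i = (x i).1 : ℕ → Ω` is injective by `disj` and
`Subtype.ext`.  `ufil` gives `i : ι'` with `{i} ∈ W`: `F i.1 = F* {i}` is not good; `F* {i}ᶜ` is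
good (as in `hW4`: not both can be bad) and equals `⋃ j ≠ i.1, F j`.
-/

open Set
open scoped Topology

namespace CWG

variable {Ω : Type} [LinearOrder Ω] [WellFoundedLT Ω] {L : NS Ω}

theorem disj {ι : Type} (F : ι → Set (XX L))
    (hd : ∀ x : XX L, ∃ U ∈ 𝓝 x, ∀ i j, (F i ∩ U).Nonempty → (F j ∩ U).Nonempty → i = j)
    {i j : ι} {x : XX L} (hi : x ∈ F i) (hj : x ∈ F j) : i = j := by
  obtain ⟨U, hU, h⟩ := hd x
  exact h i j ⟨x, hi, mem_of_mem_nhds hU⟩ ⟨x, hj, mem_of_mem_nhds hU⟩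

theorem union_closed {ι : Type} (F : ι → Set (XX L)) (hF : ∀ i, IsClosed (F i))
    (hd : ∀ x : XX L, ∃ U ∈ 𝓝 x, ∀ i j, (F i ∩ U).Nonempty → (F j ∩ U).Nonempty → i = j)
    (J : Set ι) : IsClosed (⋃ i ∈ J, F i) := by
  rw [← isOpen_compl_iff, isOpen_iff_mem_nhds]
  intro x hx
  obtain ⟨U, hU, h⟩ := hd x
  by_cases hex : ∃ i ∈ J, (F i ∩ U).Nonempty
  · obtain ⟨i, hiJ, hi⟩ := hex
    have hxi : x ∉ F i := fun h => hx (mem_biUnion hiJ h)
    refine Filter.mem_of_superset (Filter.inter_mem hU ((hF i).isOpen_compl.mem_nhds hxi)) ?_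
    rintro y ⟨hyU, hyi⟩ hy
    obtain ⟨j, hj, hyj⟩ := mem_iUnion₂.1 hy
    have := h i j hi ⟨y, hyj, hyU⟩
    subst this
    exact hyi hyj
  · refine Filter.mem_of_superset hU ?_
    intro y hyU hy
    obtain ⟨j, hj, hyj⟩ := mem_iUnion₂.1 hy
    exact hex ⟨j, hj, y, hyj, hyU⟩

theorem uf (hO : Om Ω) {ι : Type} (F : ι → Set (XX L)) (hF : ∀ i, IsClosed (F i))
    (hd : ∀ x : XX L, ∃ U ∈ 𝓝 x, ∀ i j, (F i ∩ U).Nonempty → (F j ∩ U).Nonempty → i = j)
    {n : ℕ} {s : Fin n → Ω} (hs : Inc s) (h : ¬ Good (⋃ i, F i) s) :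
    ∃ i, ¬ Good (F i) s ∧ Good (⋃ j ∈ ({i} : Set ι)ᶜ, F j) s := by
  classical
  let ι' := {i : ι // (F i).Nonempty}
  let F' : ι' → Set (XX L) := fun i => F i.1
  have hF' : ∀ i, IsClosed (F' i) := fun i => hF i.1
  have hd' : ∀ x : XX L, ∃ U ∈ 𝓝 x, ∀ i j, (F' i ∩ U).Nonempty → (F' j ∩ U).Nonempty → i = j := by
    intro x
    obtain ⟨U, hU, h⟩ := hd x
    exact ⟨U, hU, fun i j hi hj => Subtype.ext (h i.1 j.1 hi hj)⟩
  obtain ⟨S, hS⟩ : ∃ S : Set ι' → Set (XX L), ∀ J x, x ∈ S J ↔ ∃ i ∈ J, x ∈ F' i :=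
    ⟨fun J => ⋃ i ∈ J, F' i, fun J x => by rw [mem_iUnion₂]; simp⟩
  have hSe : ∀ J, S J = ⋃ i ∈ J, F' i := by
    intro J
    ext x
    rw [hS, mem_iUnion₂]
    simp
  have hcl : ∀ J : Set ι', IsClosed (S J) := fun J => by
    rw [hSe]
    exact union_closed F' hF' hd' J
  have htot : IsClosed (⋃ i, F i) := by
    have := union_closed F hF hd univ
    simpa using this
  -- not both good
  have hnb : ∀ J : Set ι', Good (S J) s → Good (S Jᶜ) s → False := by
    intro J h1 h2
    apply h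
    refine good_of_cover hO _ htot (fun l => if l = 0 then S J else S Jᶜ) ?_ hs ?_
    · intro x hx
      obtain ⟨i, hi⟩ := mem_iUnion.1 hx
      by_cases hJ : (⟨i, x, hi⟩ : ι') ∈ J
      · exact mem_iUnion.2 ⟨0, by rw [if_pos rfl, hS]; exact ⟨_, hJ, hi⟩⟩
      · exact mem_iUnion.2 ⟨1, by rw [if_neg one_ne_zero, hS]; exact ⟨_, hJ, hi⟩⟩
    · intro l
      by_cases hl : l = 0
      · rw [if_pos hl]
        exact h1
      · rw [if_neg hl]
        exact h2
  -- not both bad
  have hng : ∀ J : Set ι', ¬ Good (S J) s → Good (S Jᶜ) s := by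
    intro J h1
    by_contra h2
    obtain ⟨x, hx, -, -⟩ := common_point hO (fun l => if l = 0 then S J else S Jᶜ)
      (fun l => by
        by_cases hl : l = 0
        · rw [if_pos hl]
          exact hcl _
        · rw [if_neg hl]
          exact hcl _) hs
      (fun l => by
        by_cases hl : l = 0
        · rw [if_pos hl]
          exact h1
        · rw [if_neg hl]
          exact h2) univ (club_univ hO)
    have h3 := hx 0
    have h4 := hx 1
    rw [if_pos rfl, hS] at h3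
    rw [if_neg one_ne_zero, hS] at h4
    obtain ⟨i, hi, hxi⟩ := h3
    obtain ⟨j, hj, hxj⟩ := h4
    have : i = j := disj F' hd' hxi hxj
    subst this
    exact hj hi
  choose pt hpt using fun i : ι' => i.2
  obtain ⟨i, hi⟩ := ufil hO.1 (ι := ι') (fun i => (pt i).1) (by
      intro i j hij
      have h1 : pt i = pt j := Subtype.ext hij
      have h2 : pt i ∈ F j.1 := by rw [h1]; exact hpt j
      exact Subtype.ext (disj F hd (hpt i) h2)) {J | ¬ Good (S J) s}
    (by
      intro A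
      by_contra hcon
      rw [not_or] at hcon
      exact hnb A (not_not.1 hcon.1) (not_not.1 hcon.2))
    (by
      intro h1
      apply h1
      refine good_anti (F' := ∅) ?_ (good_empty hO s)
      intro x hx
      rw [hS] at hx
      obtain ⟨i, hi, -⟩ := hx
      exact absurd hi (notMem_empty _))
    (by
      intro A hA
      by_contra hcon
      have h1 : Good (S (⋂ n, A n)) s := not_not.1 hcon
      apply h
      refine good_of_cover hO _ htot
        (fun l => if l = 0 then S (⋂ n, A n) else S (A (l - 1))ᶜ) ?_ hs ?_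
      · intro x hx
        obtain ⟨i, hi⟩ := mem_iUnion.1 hx
        by_cases hJ : (⟨i, x, hi⟩ : ι') ∈ ⋂ n, A n
        · exact mem_iUnion.2 ⟨0, by rw [if_pos rfl, hS]; exact ⟨_, hJ, hi⟩⟩
        · rw [mem_iInter] at hJ
          push Not at hJ
          obtain ⟨l, hl⟩ := hJ
          exact mem_iUnion.2 ⟨l + 1, by
            rw [if_neg (Nat.succ_ne_zero l), hS]
            exact ⟨_, hl, hi⟩⟩
      · intro l
        by_cases hl : l = 0
        · rw [if_pos hl]
          exact h1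
        · rw [if_neg hl]
          exact hng _ (hA (l - 1)))
  have hi' : ¬ Good (S {i}) s := hi
  refine ⟨i.1, fun h1 => hi' (good_anti ?_ h1), good_anti ?_ (hng _ hi')⟩
  · intro x hx
    rw [hS] at hx
    obtain ⟨j, hj, hxj⟩ := hx
    rw [mem_singleton_iff] at hj
    subst hj
    exact hxj
  · intro x hx
    obtain ⟨j, hj, hxj⟩ := mem_iUnion₂.1 hx
    rw [hS]
    refine ⟨⟨j, x, hxj⟩, fun h1 => hj ?_, hxj⟩
    exact congrArg Subtype.val h1

end CWG
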